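import Pool.Agent.Q226.Bog.Puz

set_option autoImplicit false

/-! From a packing to a board. -/

namespace Pool.Agent.Q226.Bog

open Finset

theorem board_of {n : ℕ} (ψ : ℕ → ℕ × ℕ)
    (h1 : ∀ l, 1 ≤ l → l ≤ n ^ 2 → (ψ l).1 < n ∧ (ψ l).2 < n)
    (h2 : ∀ l, 1 ≤ l → l ≤ n ^ 2 → ∀ l', 1 ≤ l' → l' ≤ n ^ 2 → ψ l = ψ l' → l = l') :
    ∃ B : Fin n × Fin n → ℕ, IsBoard n B ∧ ∀ x y, 1 ≤ x → x ≤ n ^ 2 → 1 ≤ y → y ≤ n ^ 2 →
      Ad (ψ x) (ψ y) → ∃ p q : Fin n × Fin n, KAdj p q ∧ B p = x ∧ B q = y := by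
  let g : Fin (n ^ 2) → Fin n × Fin n := fun k =>
    (⟨(ψ (k.1 + 1)).1, (h1 (k.1 + 1) (by omega) k.2).1⟩,
      ⟨(ψ (k.1 + 1)).2, (h1 (k.1 + 1) (by omega) k.2).2⟩)
  have hg : Function.Injective g := by
    intro k k' h
    rw [Prod.mk.injEq, Fin.mk.injEq, Fin.mk.injEq] at h
    have := h2 (k.1 + 1) (by omega) k.2 (k'.1 + 1) (by omega) k'.2 (Prod.ext h.1 h.2)
    exact Fin.ext (by omega)
  have hb : Function.Bijective g := by
    rw [Fintype.bijective_iff_injective_and_card]
    refine ⟨hg, ?_⟩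
    rw [Fintype.card_fin, Fintype.card_prod, Fintype.card_fin]
    ring
  let e : Fin (n ^ 2) ≃ Fin n × Fin n := Equiv.ofBijective g hb
  refine ⟨fun p => (e.symm p : ℕ) + 1, ⟨?_, ?_, ?_⟩, ?_⟩
  · intro p _
    show (e.symm p : ℕ) + 1 ∈ Set.Icc 1 (n ^ 2)
    rw [Set.mem_Icc]
    have := (e.symm p).2
    omega
  · intro p _ q _ h
    have h3 : (e.symm p : ℕ) + 1 = (e.symm q : ℕ) + 1 := h
    have : e.symm p = e.symm q := Fin.ext (by omega)
    exact e.symm.injective this
  · intro l hl
    rw [Set.mem_Icc] at hl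
    refine ⟨e ⟨l - 1, by omega⟩, Set.mem_univ _, ?_⟩
    show (e.symm (e ⟨l - 1, _⟩) : ℕ) + 1 = l
    rw [Equiv.symm_apply_apply]
    show l - 1 + 1 = l
    omega
  · intro x y hx1 hx2 hy1 hy2 had
    refine ⟨e ⟨x - 1, by omega⟩, e ⟨y - 1, by omega⟩, ?_, ?_, ?_⟩
    · apply KAdj_of_Ad
      show Ad ((ψ (x - 1 + 1)).1, (ψ (x - 1 + 1)).2) ((ψ (y - 1 + 1)).1, (ψ (y - 1 + 1)).2)
      rw [show x - 1 + 1 = x by omega, show y - 1 + 1 = y by omega]
      exact had
    · show (e.symm (e ⟨x - 1, _⟩) : ℕ) + 1 = x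
      rw [Equiv.symm_apply_apply]
      show x - 1 + 1 = x
      omega
    · show (e.symm (e ⟨y - 1, _⟩) : ℕ) + 1 = y
      rw [Equiv.symm_apply_apply]
      show y - 1 + 1 = y
      omega

theorem exists_itm (s : List ℕ) : ∀ k m, m < pre s k → ∃ i < k, pre s i ≤ m ∧
    m < pre s i + s.getD i 0 := by
  intro k
  induction k with
  | zero => intro m hm; simp [pre] at hm
  | succ k ih =>
    intro m hm
    by_cases h : m < pre s k
    · obtain ⟨i, hi, h1⟩ := ih m h
      exact ⟨i, by omega, h1⟩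
    · refine ⟨k, by omega, by omega, ?_⟩
      rw [pre_eq, Finset.sum_range_succ, ← pre_eq] at hm
      exact hm

theorem complete {G n : ℕ} {s : List ℕ} (hn : n = 3 * G + 2)
    (hsum : s.sum = G * (n - 1)) (hp : Pack s G (n - 1)) :
    ∃ B : Fin n × Fin n → ℕ, IsBoard n B ∧ ∀ w ∈ words G n s, Occurs B w := by
  obtain ⟨f, hf1, hf2⟩ := hp
  have htot := total hn
  have hpre1 : ∀ i, pre s (i + 1) = pre s i + s.getD i 0 := by
    intro i
    rw [pre_eq, pre_eq, Finset.sum_range_succ]
  have hpre2 : pre s s.length = s.sum := by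
    rw [pre_eq, sum_getD]
  have hmono : ∀ i j, i ≤ j → pre s i ≤ pre s j := by
    intro i j hij
    rw [pre_eq, pre_eq]
    exact Finset.sum_le_sum_of_subset (Finset.range_subset_range.2 hij)
  have hlt : ∀ i < s.length, ∀ q < s.getD i 0, pre s i + q < G * (n - 1) := by
    intro i hi q hq
    have h1 := hmono (i + 1) s.length hi
    rw [hpre1, hpre2, hsum] at h1
    omega
  have hitm : ∀ m, ∃ i, m < G * (n - 1) → i < s.length ∧ pre s i ≤ m ∧
      m < pre s i + s.getD i 0 := by
    intro m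
    by_cases h : m < G * (n - 1)
    · obtain ⟨i, h1, h2⟩ := exists_itm s s.length m (by rw [hpre2, hsum]; exact h)
      exact ⟨i, fun _ => ⟨h1, h2⟩⟩
    · exact ⟨0, fun h' => absurd h' h⟩
  choose itm hitm using hitm
  have huniq : ∀ i < s.length, ∀ q < s.getD i 0, itm (pre s i + q) = i := by
    intro i hi q hq
    obtain ⟨h1, h2, h3⟩ := hitm _ (hlt i hi q hq)
    rcases lt_trichotomy (itm (pre s i + q)) i with h | h | h
    · have := hmono _ _ h
      rw [hpre1] at this
      omega
    · exact h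
    · have := hmono _ _ h
      rw [hpre1] at this
      omega
  -- offsets
  obtain ⟨off, hoff⟩ : ∃ off : ℕ → ℕ, ∀ i,
      off i = ∑ t ∈ (range i).filter (fun t => f t = f i), s.getD t 0 := ⟨_, fun _ => rfl⟩
  have hoff1 : ∀ i < s.length, ∀ i' < s.length, i < i' → f i = f i' →
      off i + s.getD i 0 ≤ off i' := by
    intro i hi i' hi' hii he
    rw [hoff, hoff, ← he]
    have h1 : i ∉ (range i).filter (fun t => f t = f i) := by simp
    have h2 : insert i ((range i).filter (fun t => f t = f i)) ⊆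
        (range i').filter (fun t => f t = f i) := by
      intro t ht
      rw [Finset.mem_insert] at ht
      rw [Finset.mem_filter, Finset.mem_range]
      rcases ht with rfl | ht
      · exact ⟨hii, rfl⟩
      · rw [Finset.mem_filter, Finset.mem_range] at ht
        exact ⟨by omega, ht.2⟩
    have h3 := Finset.sum_le_sum_of_subset (f := fun t => s.getD t 0) h2
    rw [Finset.sum_insert h1] at h3
    omega
  have hoff2 : ∀ i < s.length, off i + s.getD i 0 ≤ n - 1 := by
    intro i hi
    rw [hoff]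
    have h1 : i ∉ (range i).filter (fun t => f t = f i) := by simp
    have h2 : insert i ((range i).filter (fun t => f t = f i)) ⊆
        (range s.length).filter (fun t => f t = f i) := by
      intro t ht
      rw [Finset.mem_insert] at ht
      rw [Finset.mem_filter, Finset.mem_range]
      rcases ht with rfl | ht
      · exact ⟨hi, rfl⟩
      · rw [Finset.mem_filter, Finset.mem_range] at ht
        exact ⟨by omega, ht.2⟩
    have h3 := Finset.sum_le_sum_of_subset (f := fun t => s.getD t 0) h2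
    rw [Finset.sum_insert h1] at h3
    have h4 := hf2 (f i) (hf1 i hi)
    omega
  -- the position of a letter
  obtain ⟨ψ, hψ⟩ : ∃ ψ : ℕ → ℕ × ℕ, ∀ l, ψ l =
      if l ≤ 2 * (G + 1) * n then (3 * ((l - 1) / n / 2) + (l - 1) / n % 2, (l - 1) % n)
      else if l ≤ 2 * (G + 1) * n + G then (3 * (l - 2 * (G + 1) * n - 1) + 2, 0)
      else (3 * f (itm (l - (2 * (G + 1) * n + G) - 1)) + 2,
        1 + off (itm (l - (2 * (G + 1) * n + G) - 1)) +
          (l - (2 * (G + 1) * n + G) - 1 - pre s (itm (l - (2 * (G + 1) * n + G) - 1)))) :=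
    ⟨_, fun _ => rfl⟩
  have hn0 : 0 < n := by omega
  have ψS : ∀ j ≤ G, ∀ a < 2, ∀ c < n, ψ (cS n j a c) = (3 * j + a, c) := by
    intro j hj a ha c hc
    rw [hψ, if_pos (cS_le hj ha hc)]
    have h1 : ((2 * j + a) * n + c) / n = 2 * j + a := by
      rw [mul_comm, Nat.mul_add_div hn0, Nat.div_eq_of_lt hc, add_zero]
    have h2 : ((2 * j + a) * n + c) % n = c := by
      rw [mul_comm, Nat.mul_add_mod, Nat.mod_eq_of_lt hc]
    unfold cS
    rw [Nat.add_sub_cancel, h1, h2]
    have h3 : (2 * j + a) / 2 = j := by omega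
    have h4 : (2 * j + a) % 2 = a := by omega
    rw [h3, h4]
  have ψX : ∀ j < G, ψ (cX G n j) = (3 * j + 2, 0) := by
    intro j hj
    unfold cX
    rw [hψ, if_neg (by omega), if_pos (by omega)]
    congr 2
    omega
  have ψY : ∀ i < s.length, ∀ q < s.getD i 0,
      ψ (cY G n (pre s i + q)) = (3 * f i + 2, 1 + off i + q) := by
    intro i hi q hq
    unfold cY
    rw [hψ, if_neg (by omega), if_neg (by omega)]
    have h1 : 2 * (G + 1) * n + G + (pre s i + q) + 1 - (2 * (G + 1) * n + G) - 1 = pre s i + q := by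
      omega
    rw [h1, huniq i hi q hq]
    congr 2
    omega
  -- the three types of letters
  have htype : ∀ l, 1 ≤ l → l ≤ n ^ 2 → (∃ j ≤ G, ∃ a < 2, ∃ c < n, l = cS n j a c) ∨
      (∃ j < G, l = cX G n j) ∨ ∃ i < s.length, ∃ q < s.getD i 0, l = cY G n (pre s i + q) := by
    intro l hl1 hl2
    by_cases h1 : l ≤ 2 * (G + 1) * n
    · left
      have h2 : (l - 1) / n < 2 * (G + 1) := by
        rw [Nat.div_lt_iff_lt_mul hn0]
        omega
      have h3 : (l - 1) % n < n := Nat.mod_lt _ hn0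
      refine ⟨(l - 1) / n / 2, by omega, (l - 1) / n % 2, by omega, (l - 1) % n, h3, ?_⟩
      unfold cS
      have h4 : 2 * ((l - 1) / n / 2) + (l - 1) / n % 2 = (l - 1) / n := by omega
      rw [h4]
      have h5 := Nat.div_add_mod (l - 1) n
      rw [mul_comm] at h5
      omega
    · by_cases h2 : l ≤ 2 * (G + 1) * n + G
      · right; left
        exact ⟨l - 2 * (G + 1) * n - 1, by omega, by unfold cX; omega⟩
      · right; right
        obtain ⟨a1, a2, a3⟩ := hitm (l - (2 * (G + 1) * n + G) - 1) (by omega)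
        exact ⟨_, a1, l - (2 * (G + 1) * n + G) - 1 - pre s (itm (l - (2 * (G + 1) * n + G) - 1)),
          by omega, by unfold cY; omega⟩
  obtain ⟨B, hB1, hB2⟩ := board_of (n := n) ψ (by
    intro l h1 h2
    rcases htype l h1 h2 with ⟨j, hj, a, ha, c, hc, rfl⟩ | ⟨j, hj, rfl⟩ | ⟨i, hi, q, hq, rfl⟩
    · rw [ψS j hj a ha c hc]
      exact ⟨by show 3 * j + a < n; omega, hc⟩
    · rw [ψX j hj]
      exact ⟨by show 3 * j + 2 < n; omega, hn0⟩
    · rw [ψY i hi q hq]
      have h3 := hf1 i hi
      have h4 := hoff2 i hi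
      exact ⟨by show 3 * f i + 2 < n; omega, by show 1 + off i + q < n; omega⟩) (by
    intro l h1 h2 l' h1' h2' he
    rcases htype l h1 h2 with ⟨j, hj, a, ha, c, hc, rfl⟩ | ⟨j, hj, rfl⟩ | ⟨i, hi, q, hq, rfl⟩ <;>
    rcases htype l' h1' h2' with ⟨j', hj', a', ha', c', hc', rfl⟩ | ⟨j', hj', rfl⟩ |
      ⟨i', hi', q', hq', rfl⟩
    · rw [ψS j hj a ha c hc, ψS j' hj' a' ha' c' hc', Prod.mk.injEq] at he
      have e1 : j = j' := by omega
      have e2 : a = a' := by omega
      rw [e1, e2, he.2]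
    · rw [ψS j hj a ha c hc, ψX j' hj', Prod.mk.injEq] at he
      omega
    · rw [ψS j hj a ha c hc, ψY i' hi' q' hq', Prod.mk.injEq] at he
      omega
    · rw [ψX j hj, ψS j' hj' a' ha' c' hc', Prod.mk.injEq] at he
      omega
    · rw [ψX j hj, ψX j' hj', Prod.mk.injEq] at he
      have e1 : j = j' := by omega
      rw [e1]
    · rw [ψX j hj, ψY i' hi' q' hq', Prod.mk.injEq] at he
      omega
    · rw [ψY i hi q hq, ψS j' hj' a' ha' c' hc', Prod.mk.injEq] at he
      omega
    · rw [ψY i hi q hq, ψX j' hj', Prod.mk.injEq] at he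
      omega
    · rw [ψY i hi q hq, ψY i' hi' q' hq', Prod.mk.injEq] at he
      have e1 : f i = f i' := by omega
      have e2 : i = i' := by
        rcases lt_trichotomy i i' with h | h | h
        · have := hoff1 i hi i' hi' h e1
          omega
        · exact h
        · have := hoff1 i' hi' i hi h e1.symm
          omega
      subst e2
      have e3 : q = q' := by omega
      rw [e3])
  refine ⟨B, hB1, ?_⟩
  -- ranges of the codes
  have rS : ∀ j ≤ G, ∀ a < 2, ∀ c < n, 1 ≤ cS n j a c ∧ cS n j a c ≤ n ^ 2 := by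
    intro j hj a ha c hc
    have := cS_le hj ha hc
    exact ⟨by unfold cS; omega, by omega⟩
  have rX : ∀ j < G, 1 ≤ cX G n j ∧ cX G n j ≤ n ^ 2 := by
    intro j hj
    unfold cX
    omega
  have rY : ∀ m < G * (n - 1), 1 ≤ cY G n m ∧ cY G n m ≤ n ^ 2 := by
    intro m hm
    unfold cY
    omega
  intro w hw
  unfold words at hw
  rw [List.mem_append, List.mem_append, List.mem_flatMap, List.mem_flatMap, List.mem_map] at hw
  unfold Occurs
  rcases hw with ⟨j, hj, hw⟩ | ⟨j, hj, hw⟩ | ⟨i, hi, rfl⟩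
  · rw [List.mem_range] at hj
    have hj' : j ≤ G := by omega
    have key : ∀ a < 2, ∀ c < n, ∀ a' < 2, ∀ c' < n, Ad (3 * j + a, c) (3 * j + a', c') →
        List.IsChain (fun x y => ∃ p q : Fin n × Fin n, KAdj p q ∧ B p = x ∧ B q = y)
          [cS n j a c, cS n j a' c'] := by
      intro a ha c hc a' ha' c' hc' had
      rw [List.isChain_pair]
      apply hB2 _ _ (rS j hj' a ha c hc).1 (rS j hj' a ha c hc).2 (rS j hj' a' ha' c' hc').1
        (rS j hj' a' ha' c' hc').2
      rw [ψS j hj' a ha c hc, ψS j hj' a' ha' c' hc']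
      exact had
    unfold wS at hw
    rw [List.mem_append, List.mem_map, List.mem_flatMap] at hw
    rcases hw with ⟨c, hc, rfl⟩ | ⟨c, hc, hw⟩
    · rw [List.mem_range] at hc
      exact key 0 (by omega) c hc 1 (by omega) c hc (by unfold Ad; simp only; omega)
    · rw [List.mem_range] at hc
      simp only [List.mem_cons, List.not_mem_nil, or_false] at hw
      rcases hw with rfl | rfl | rfl | rfl
      · exact key _ (by omega) _ (by omega) _ (by omega) _ (by omega)
          (by unfold Ad; simp only; omega)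
      · exact key _ (by omega) _ (by omega) _ (by omega) _ (by omega)
          (by unfold Ad; simp only; omega)
      · exact key _ (by omega) _ (by omega) _ (by omega) _ (by omega)
          (by unfold Ad; simp only; omega)
      · exact key _ (by omega) _ (by omega) _ (by omega) _ (by omega)
          (by unfold Ad; simp only; omega)
  · rw [List.mem_range] at hj
    simp only [List.mem_cons, List.not_mem_nil, or_false] at hw
    have a1 := rS j (by omega) 1 (by omega) 0 (by omega)
    have a2 := rS (j + 1) (by omega) 0 (by omega) 0 (by omega)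
    have a3 := rX j hj
    rcases hw with rfl | rfl
    · rw [List.isChain_pair]
      apply hB2 _ _ a1.1 a1.2 a3.1 a3.2
      rw [ψS j (by omega) 1 (by omega) 0 (by omega), ψX j hj]
      unfold Ad; simp only; omega
    · rw [List.isChain_pair]
      apply hB2 _ _ a3.1 a3.2 a2.1 a2.2
      rw [ψS (j + 1) (by omega) 0 (by omega) 0 (by omega), ψX j hj]
      unfold Ad; simp only; omega
  · rw [List.mem_range] at hi
    rw [List.isChain_iff_getElem]
    intro q hq
    simp only [List.length_map, List.length_range] at hq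
    simp only [List.getElem_map, List.getElem_range]
    have a1 := rY _ (hlt i hi q (by omega))
    have a2 := rY _ (hlt i hi (q + 1) hq)
    apply hB2 _ _ a1.1 a1.2 a2.1 a2.2
    rw [ψY i hi q (by omega), ψY i hi (q + 1) hq]
    unfold Ad; simp only; omega

end Pool.Agent.Q226.Bog
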