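import Pool.Agent.NPC.Defs

set_option autoImplicit false

/-! Boggle logic puzzles: definitions. -/

namespace Pool.Agent.Q226.Bog

open Pool.Agent.NPC

/-- Two cells of the board of side `n` are adjacent in the king's graph. -/
def KAdj {n : ℕ} (p q : Fin n × Fin n) : Prop :=
  p ≠ q ∧ |((p.1 : ℕ) : ℤ) - ((q.1 : ℕ) : ℤ)| ≤ 1 ∧ |((p.2 : ℕ) : ℤ) - ((q.2 : ℕ) : ℤ)| ≤ 1

/-- A board: a bijection from the cells to the letters `1, …, n²`. -/
def IsBoard (n : ℕ) (B : Fin n × Fin n → ℕ) : Prop := Set.BijOn B Set.univ (Set.Icc 1 (n ^ 2))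

/-- The word `w` occurs in `B`: every two consecutive letters sit on adjacent cells. -/
def Occurs {n : ℕ} (B : Fin n × Fin n → ℕ) (w : List ℕ) : Prop :=
  w.IsChain (fun x y => ∃ p q : Fin n × Fin n, KAdj p q ∧ B p = x ∧ B q = y)

/-- An instance of BOGGLE-SOLVE: the side of the board, in unary, and a list of words. -/
abbrev Inst : Type := List Unit × List (List ℕ)

/-- The side of the board. -/
def side (I : Inst) : ℕ := I.1.length

/-- The words are sequences of pairwise distinct letters from `1, …, n²`, of length at least two. -/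
def Legal (I : Inst) : Prop :=
  ∀ w ∈ I.2, 2 ≤ w.length ∧ w.Nodup ∧ ∀ x ∈ w, 1 ≤ x ∧ x ≤ side I ^ 2

/-- There is a board in which all the words occur. -/
def Solvable (I : Inst) : Prop :=
  ∃ B : Fin (side I) × Fin (side I) → ℕ, IsBoard (side I) B ∧ ∀ w ∈ I.2, Occurs B w

/-- BOGGLE-SOLVE, as a decision problem: the yes-instances are the legal instances that are
solvable. -/
def BoggleSolve (I : Inst) : Prop := Legal I ∧ Solvable I

/-- `NP`-completeness of a decision problem. -/
def NPCompleteP {α : Type} [TEnc α] (P : α → Prop) : Prop := InNPP P ∧ NPHardP P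

end Pool.Agent.Q226.Bog
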