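import Pool.Agent.Q226.Bog.Complete
import Pool.Agent.H43R3.SN.StmtsB

set_option autoImplicit false

/-! From bin packing to the packing of the items with fillers. -/

namespace Pool.Agent.Q226.Bog

open Finset
open Pool.Agent.H43R3.SN (BPk)

/-- number of gaps -/
def GG (b B : ℕ) : ℕ := b + 2 * B

/-- side of the board -/
def NN (b B : ℕ) : ℕ := 3 * GG b B + 2

/-- the items: the doubled sizes, one filler for each of the `b` bins and `2 B` full fillers -/
def items (a : List ℕ) (b B : ℕ) : List ℕ :=
  a.map (fun x => 2 * x) ++ ((List.range b).map (fun _ => NN b B - 1 - 2 * B) ++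
    (List.range (2 * B)).map (fun _ => NN b B - 1))

theorem items_length (a : List ℕ) (b B : ℕ) : (items a b B).length = a.length + GG b B := by
  unfold items GG
  simp

theorem items_lt {a : List ℕ} {b B i : ℕ} (h : i < a.length) :
    (items a b B).getD i 0 = 2 * a.getD i 0 := by
  unfold items
  rw [List.getD_eq_getElem _ _ (by simp; omega), List.getD_eq_getElem _ _ h,
    List.getElem_append_left (by simpa using h), List.getElem_map]

theorem items_mid {a : List ℕ} {b B i : ℕ} (h : i < b) :
    (items a b B).getD (a.length + i) 0 = NN b B - 1 - 2 * B := by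
  unfold items
  rw [List.getD_eq_getElem _ _ (by simp; omega), List.getElem_append_right (by simp)]
  simp only [List.length_map, Nat.add_sub_cancel_left]
  rw [List.getElem_append_left (by simpa using h), List.getElem_map]

theorem items_big {a : List ℕ} {b B i : ℕ} (h : i < 2 * B) :
    (items a b B).getD (a.length + b + i) 0 = NN b B - 1 := by
  unfold items
  rw [List.getD_eq_getElem _ _ (by simp; omega), List.getElem_append_right (by simp; omega),
    List.getElem_append_right (by simp; omega), List.getElem_map]

theorem items_sum {a : List ℕ} {b B : ℕ} (h : a.sum = b * B) :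
    (items a b B).sum = GG b B * (NN b B - 1) := by
  unfold items
  rw [List.sum_append, List.sum_append, List.sum_map_mul_left, List.map_id', h]
  simp only [List.map_const', List.length_range, List.sum_replicate, smul_eq_mul]
  unfold NN GG
  have h1 : 3 * (b + 2 * B) + 2 - 1 = 3 * b + 6 * B + 1 := by omega
  have h2 : 3 * b + 6 * B + 1 - 2 * B = 3 * b + 4 * B + 1 := by omega
  rw [h1, h2]
  ring

theorem items_pos {a : List ℕ} {b B : ℕ} (hb : 1 ≤ b) (ha : ∀ i < a.length, 1 ≤ a.getD i 0) :
    ∀ i < (items a b B).length, 2 ≤ (items a b B).getD i 0 := by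
  intro i hi
  rw [items_length] at hi
  unfold GG at hi
  by_cases h1 : i < a.length
  · rw [items_lt h1]
    have := ha i h1
    omega
  · by_cases h2 : i < a.length + b
    · rw [show i = a.length + (i - a.length) by omega, items_mid (by omega)]
      unfold NN GG
      omega
    · rw [show i = a.length + b + (i - a.length - b) by omega, items_big (by omega)]
      unfold NN GG
      omega

/-- sum over two different items in a bin -/
theorem two_items {s : List ℕ} {G C : ℕ} {f : ℕ → ℕ}
    (hf : ∀ j < G, ∑ i ∈ (range s.length).filter (fun i => f i = j), s.getD i 0 ≤ C)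
    (hG : ∀ i < s.length, f i < G) {i i' : ℕ} (hi : i < s.length) (hi' : i' < s.length)
    (hne : i ≠ i') (he : f i = f i') : s.getD i 0 + s.getD i' 0 ≤ C := by
  refine le_trans ?_ (hf (f i) (hG i hi))
  rw [← Finset.sum_pair hne (f := fun t => s.getD t 0)]
  apply Finset.sum_le_sum_of_subset
  intro t ht
  rw [Finset.mem_insert, Finset.mem_singleton] at ht
  rw [Finset.mem_filter, Finset.mem_range]
  rcases ht with rfl | rfl
  · exact ⟨hi, rfl⟩
  · exact ⟨hi', he.symm⟩

theorem pack_iff {a : List ℕ} {b B : ℕ} (hb : 1 ≤ b) (hB : 1 ≤ B)
    (ha : ∀ i < a.length, 1 ≤ a.getD i 0) :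
    BPk a b B ↔ Pack (items a b B) (GG b B) (NN b B - 1) := by
  constructor
  · rintro ⟨f, hf1, hf2⟩
    refine ⟨fun i => if i < a.length then f i else i - a.length, ?_, ?_⟩
    · intro i hi
      rw [items_length] at hi
      show (if i < a.length then f i else i - a.length) < GG b B
      split_ifs with h
      · have := hf1 i h
        unfold GG
        omega
      · omega
    · intro j hj
      have hfil : (range (items a b B).length).filter
          (fun i => (if i < a.length then f i else i - a.length) = j)
          = insert (a.length + j) ((range a.length).filter (fun i => f i = j)) := by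
        ext i
        rw [Finset.mem_filter, Finset.mem_range, Finset.mem_insert, Finset.mem_filter,
          Finset.mem_range, items_length]
        split_ifs with h
        · constructor
          · rintro ⟨-, h1⟩
            exact Or.inr ⟨h, h1⟩
          · rintro (h1 | h1)
            · omega
            · exact ⟨by omega, h1.2⟩
        · constructor
          · rintro ⟨h1, h2⟩
            left; omega
          · rintro (h1 | h1)
            · omega
            · omega
      rw [hfil, Finset.sum_insert (by simp)]
      have h1 : ∑ i ∈ (range a.length).filter (fun i => f i = j), (items a b B).getD i 0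
          = 2 * ∑ i ∈ (range a.length).filter (fun i => f i = j), a.getD i 0 := by
        rw [Finset.mul_sum]
        apply Finset.sum_congr rfl
        intro i hi
        rw [Finset.mem_filter, Finset.mem_range] at hi
        exact items_lt hi.1
      rw [h1]
      by_cases hjb : j < b
      · rw [items_mid hjb]
        have := hf2 j hjb
        have h2 : 2 * B ≤ NN b B - 1 := by unfold NN GG; omega
        omega
      · unfold GG at hj
        rw [show a.length + j = a.length + b + (j - b) by omega, items_big (by omega)]
        have : (range a.length).filter (fun i => f i = j) = ∅ := by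
          rw [Finset.filter_eq_empty_iff]
          intro i hi e
          rw [Finset.mem_range] at hi
          have := hf1 i hi
          omega
        rw [this]
        simp
  · rintro ⟨f, hf1, hf2⟩
    have hpos := items_pos (B := B) hb ha
    have hlen := items_length a b B
    have hN : NN b B - 1 = 3 * b + 6 * B + 1 := by unfold NN GG; omega
    have hGv : GG b B = b + 2 * B := rfl
    -- the fillers are in different bins
    have hfill : ∀ i < GG b B, NN b B - 1 - 2 * B ≤ (items a b B).getD (a.length + i) 0 := by
      intro i hi
      by_cases h : i < b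
      · rw [items_mid h]
      · rw [show a.length + i = a.length + b + (i - b) by omega, items_big (by omega)]
        omega
    have hinj : ∀ i < GG b B, ∀ i' < GG b B, f (a.length + i) = f (a.length + i') → i = i' := by
      intro i hi i' hi' he
      by_contra hne
      have h1 := two_items hf2 hf1 (i := a.length + i) (i' := a.length + i') (by omega) (by omega)
        (by omega) he
      have h2 := hfill i hi
      have h3 := hfill i' hi'
      omega
    have hsurj : ∀ j < GG b B, ∃ i < GG b B, f (a.length + i) = j := by
      have himg : (range (GG b B)).image (fun i => f (a.length + i)) ⊆ range (GG b B) := by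
        intro j hj
        rw [Finset.mem_image] at hj
        obtain ⟨i, hi, rfl⟩ := hj
        rw [Finset.mem_range] at hi ⊢
        exact hf1 _ (by omega)
      have hc : ((range (GG b B)).image (fun i => f (a.length + i))).card = GG b B := by
        rw [Finset.card_image_of_injOn, Finset.card_range]
        intro i hi i' hi' he
        rw [Finset.mem_coe, Finset.mem_range] at hi hi'
        exact hinj i hi i' hi' he
      have heq := Finset.eq_of_subset_of_card_le himg (by rw [hc, Finset.card_range])
      intro j hj
      have : j ∈ range (GG b B) := Finset.mem_range.2 hj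
      rw [← heq, Finset.mem_image] at this
      obtain ⟨i, hi, e⟩ := this
      exact ⟨i, Finset.mem_range.1 hi, e⟩
    -- the filler in the bin of an item
    have hg : ∀ i, ∃ g, i < a.length → g < b ∧ f (a.length + g) = f i := by
      intro i
      by_cases h : i < a.length
      · obtain ⟨g, hg1, hg2⟩ := hsurj (f i) (hf1 i (by omega))
        refine ⟨g, fun _ => ⟨?_, hg2⟩⟩
        by_contra hcon
        have h1 := two_items hf2 hf1 (i := a.length + g) (i' := i) (by omega) (by omega)
          (by omega) hg2
        rw [show a.length + g = a.length + b + (g - b) by omega, items_big (by omega)] at h1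
        have h2 := hpos i (by omega)
        omega
      · exact ⟨0, fun h' => absurd h' h⟩
    choose g hg using hg
    refine ⟨g, fun i hi => (hg i hi).1, ?_⟩
    intro j hj
    have h1 := hf2 (f (a.length + j)) (hf1 _ (by omega))
    have hsub : insert (a.length + j) ((range a.length).filter (fun i => g i = j)) ⊆
        (range (items a b B).length).filter (fun i => f i = f (a.length + j)) := by
      intro t ht
      rw [Finset.mem_insert, Finset.mem_filter, Finset.mem_range] at ht
      rw [Finset.mem_filter, Finset.mem_range]
      rcases ht with rfl | ⟨ht1, ht2⟩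
      · exact ⟨by omega, rfl⟩
      · refine ⟨by omega, ?_⟩
        have := (hg t ht1).2
        rw [ht2] at this
        exact this.symm
    have h2 := (Finset.sum_le_sum_of_subset (f := fun t => (items a b B).getD t 0) hsub).trans h1
    rw [Finset.sum_insert (by simp), items_mid hj] at h2
    have h3 : ∑ i ∈ (range a.length).filter (fun i => g i = j), (items a b B).getD i 0
        = 2 * ∑ i ∈ (range a.length).filter (fun i => g i = j), a.getD i 0 := by
      rw [Finset.mul_sum]
      apply Finset.sum_congr rfl
      intro i hi
      rw [Finset.mem_filter, Finset.mem_range] at hi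
      exact items_lt hi.1
    rw [h3] at h2
    omega

/-- the puzzle is legal -/
theorem legal_puz {G : ℕ} {s : List ℕ} (hsum : s.sum = G * (3 * G + 2 - 1))
    (hpos : ∀ i < s.length, 2 ≤ s.getD i 0) : Legal (puz G s) := by
  obtain ⟨n, hn⟩ : ∃ n, n = 3 * G + 2 := ⟨_, rfl⟩
  have htot := total hn
  have hpre1 : ∀ i, pre s (i + 1) = pre s i + s.getD i 0 := by
    intro i
    rw [pre_eq, pre_eq, Finset.sum_range_succ]
  have hpre2 : pre s s.length = s.sum := by
    rw [pre_eq, sum_getD]
  have hmono : ∀ i j, i ≤ j → pre s i ≤ pre s j := by
    intro i j hij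
    rw [pre_eq, pre_eq]
    exact Finset.sum_le_sum_of_subset (Finset.range_subset_range.2 hij)
  rw [← hn] at hsum
  have hlt : ∀ i < s.length, ∀ q < s.getD i 0, pre s i + q < G * (n - 1) := by
    intro i hi q hq
    have h1 := hmono (i + 1) s.length hi
    rw [hpre1, hpre2, hsum] at h1
    omega
  have rS : ∀ j ≤ G, ∀ a < 2, ∀ c < n, 1 ≤ cS n j a c ∧ cS n j a c ≤ n ^ 2 := by
    intro j hj a ha c hc
    have := cS_le hj ha hc
    exact ⟨by unfold cS; omega, by omega⟩
  have rX : ∀ j < G, 1 ≤ cX G n j ∧ cX G n j ≤ n ^ 2 := by
    intro j hj
    unfold cX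
    omega
  have rY : ∀ m < G * (n - 1), 1 ≤ cY G n m ∧ cY G n m ≤ n ^ 2 := by
    intro m hm
    unfold cY
    omega
  have pair : ∀ x y : ℕ, 1 ≤ x ∧ x ≤ n ^ 2 → 1 ≤ y ∧ y ≤ n ^ 2 → x ≠ y →
      2 ≤ [x, y].length ∧ [x, y].Nodup ∧ ∀ z ∈ [x, y], 1 ≤ z ∧ z ≤ n ^ 2 := by
    intro x y hx hy hxy
    refine ⟨by simp, by simp [hxy], ?_⟩
    intro z hz
    simp only [List.mem_cons, List.not_mem_nil, or_false] at hz
    rcases hz with rfl | rfl
    · exact hx
    · exact hy
  unfold Legal
  rw [side_puz, ← hn]
  intro w hw
  have hw' : w ∈ words G n s := by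
    rw [hn]; exact hw
  clear hw
  unfold words at hw'
  rw [List.mem_append, List.mem_append, List.mem_flatMap, List.mem_flatMap, List.mem_map] at hw'
  rcases hw' with ⟨j, hj, hw⟩ | ⟨j, hj, hw⟩ | ⟨i, hi, rfl⟩
  · rw [List.mem_range] at hj
    have hj' : j ≤ G := by omega
    have key : ∀ a < 2, ∀ c < n, ∀ a' < 2, ∀ c' < n, ¬ (a = a' ∧ c = c') →
        2 ≤ [cS n j a c, cS n j a' c'].length ∧ [cS n j a c, cS n j a' c'].Nodup ∧
          ∀ z ∈ [cS n j a c, cS n j a' c'], 1 ≤ z ∧ z ≤ n ^ 2 := by
      intro a ha c hc a' ha' c' hc' hne
      exact pair _ _ (rS j hj' a ha c hc) (rS j hj' a' ha' c' hc')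
        (fun h => hne (cS_inj ha ha' hc hc' h).2)
    unfold wS at hw
    rw [List.mem_append, List.mem_map, List.mem_flatMap] at hw
    rcases hw with ⟨c, hc, rfl⟩ | ⟨c, hc, hw⟩
    · rw [List.mem_range] at hc
      exact key 0 (by omega) c hc 1 (by omega) c hc (by omega)
    · rw [List.mem_range] at hc
      simp only [List.mem_cons, List.not_mem_nil, or_false] at hw
      rcases hw with rfl | rfl | rfl | rfl
      · exact key _ (by omega) _ (by omega) _ (by omega) _ (by omega) (by omega)
      · exact key _ (by omega) _ (by omega) _ (by omega) _ (by omega) (by omega)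
      · exact key _ (by omega) _ (by omega) _ (by omega) _ (by omega) (by omega)
      · exact key _ (by omega) _ (by omega) _ (by omega) _ (by omega) (by omega)
  · rw [List.mem_range] at hj
    simp only [List.mem_cons, List.not_mem_nil, or_false] at hw
    have a1 := rS j (by omega) 1 (by omega) 0 (by omega)
    have a2 := rS (j + 1) (by omega) 0 (by omega) 0 (by omega)
    have a3 := rX j hj
    have b1 := cS_le (n := n) (c := 0) (a := 1) (j := j) (G := G) (by omega) (by omega) (by omega)
    have b2 := cS_le (n := n) (c := 0) (a := 0) (j := j + 1) (G := G) (by omega) (by omega)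
      (by omega)
    have b3 : 2 * (G + 1) * n < cX G n j := by unfold cX; omega
    rcases hw with rfl | rfl
    · exact pair _ _ a1 a3 (by omega)
    · exact pair _ _ a3 a2 (by omega)
  · rw [List.mem_range] at hi
    refine ⟨by simpa using hpos i hi, ?_, ?_⟩
    · apply List.Nodup.map
      · intro q q' h
        have h' : cY G n (pre s i + q) = cY G n (pre s i + q') := h
        unfold cY at h'
        omega
      · exact List.nodup_range
    · intro z hz
      rw [List.mem_map] at hz
      obtain ⟨q, hq, rfl⟩ := hz
      rw [List.mem_range] at hq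
      exact rY _ (hlt i hi q hq)

/-- The puzzle is solvable if and only if the items can be packed. -/
theorem puz_iff {G : ℕ} {s : List ℕ} (hG : 1 ≤ G) (hsum : s.sum = G * (3 * G + 2 - 1)) :
    Solvable (puz G s) ↔ Pack s G (3 * G + 2 - 1) := by
  unfold Solvable
  rw [side_puz]
  constructor
  · rintro ⟨B, hB, hw⟩
    exact sound hG rfl hsum hB hw
  · intro h
    exact complete rfl hsum h

end Pool.Agent.Q226.Bog
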