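import Pool.Agent.Q226.Bog.Complete
import Pool.Agent.NPC.Dec
import Pool.Agent.H671R2.PolyAuto
import Pool.Agent.Y578.OL.Main

set_option autoImplicit false

/-! BOGGLE-SOLVE is in NP. -/

namespace Pool.Agent.Q226.Bog

open Pool.Agent.NPC

theorem chain_zip {α : Type} (R : α → α → Prop) : ∀ l : List α,
    l.IsChain R ↔ ∀ e ∈ l.zip l.tail, R e.1 e.2
  | [] => by simp
  | [a] => by simp
  | a :: b :: l => by
    have ih := chain_zip R (b :: l)
    rw [List.isChain_cons_cons, ih]
    simp only [List.tail_cons, List.zip_cons_cons, List.mem_cons, forall_eq_or_imp]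

/-- position of a letter in a certificate -/
def posOf (w : List (ℕ × ℕ)) (x : ℕ) : ℕ × ℕ := w.getD (x - 1) (0, 0)

/-- test for adjacency -/
def adB (p q : ℕ × ℕ) : Bool :=
  !(decide (p.1 = q.1) && decide (p.2 = q.2)) && (decide (p.1 ≤ q.1 + 1) && (decide (q.1 ≤ p.1 + 1) &&
    (decide (p.2 ≤ q.2 + 1) && decide (q.2 ≤ p.2 + 1))))

theorem adB_iff (p q : ℕ × ℕ) : adB p q = true ↔ Ad p q := by
  unfold adB Ad
  simp only [Bool.and_eq_true, Bool.not_eq_true', Bool.and_eq_false_iff, decide_eq_true_eq,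
    decide_eq_false_iff_not]
  tauto

/-- test for a word -/
def legB (n : ℕ) (v : List ℕ) : Bool :=
  decide (2 ≤ v.length) && (decide (v.dedup = v) && v.all (fun x => decide (1 ≤ x) &&
    decide (x ≤ n * n)))

/-- test for the certificate -/
def cerB (n : ℕ) (w : List (ℕ × ℕ)) : Bool :=
  decide (w.length = n * n) && (decide (w.dedup = w) && w.all (fun c => decide (c.1 + 1 ≤ n) &&
    decide (c.2 + 1 ≤ n)))

/-- test for the words -/
def worB (I : Inst) (w : List (ℕ × ℕ)) : Bool :=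
  I.2.all (fun v => (v.zip v.tail).all (fun e => adB (posOf w e.1) (posOf w e.2)))

/-- the verifier -/
def R (p : Inst × List (ℕ × ℕ)) : Bool :=
  p.1.2.all (fun v => legB p.1.1.length v) && (cerB p.1.1.length p.2 && worB p.1 p.2)

section poly
variable {α : Type} [TEnc α]

theorem poly_posOf {w : α → List (ℕ × ℕ)} {x : α → ℕ} (hw : Poly w) (hx : Poly x) :
    Poly (fun a => posOf (w a) (x a)) := by
  unfold posOf
  exact NPC.Poly.getD hw (NPC.Poly.sub hx (NPC.Poly.const 1)) (NPC.Poly.const _)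

theorem poly_adB {p q : α → ℕ × ℕ} (hp : Poly p) (hq : Poly q) :
    Poly (fun a => adB (p a) (q a)) := by
  unfold adB
  have p1 := NPC.Poly.fst hp
  have p2 := NPC.Poly.snd hp
  have q1 := NPC.Poly.fst hq
  have q2 := NPC.Poly.snd hq
  exact NPC.Poly.and (NPC.Poly.not (NPC.Poly.and (NPC.Poly.decide_eq p1 q1)
    (NPC.Poly.decide_eq p2 q2)))
    (NPC.Poly.and (NPC.Poly.decide_le p1 (NPC.Poly.succ q1))
      (NPC.Poly.and (NPC.Poly.decide_le q1 (NPC.Poly.succ p1))
        (NPC.Poly.and (NPC.Poly.decide_le p2 (NPC.Poly.succ q2))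
          (NPC.Poly.decide_le q2 (NPC.Poly.succ p2)))))

theorem poly_legB {n : α → ℕ} {v : α → List ℕ} (hn : Poly n) (hv : Poly v) :
    Poly (fun a => legB (n a) (v a)) := by
  unfold legB
  refine NPC.Poly.and (NPC.Poly.decide_le (NPC.Poly.const 2) (NPC.Poly.length hv))
    (NPC.Poly.and (NPC.Poly.decide_eq (Pool.Agent.Y578.OL.poly_dedup hv) hv) ?_)
  exact NPC.Poly.all (p := fun a x => decide (1 ≤ x) && decide (x ≤ n a * n a)) hv
    (NPC.Poly.and (NPC.Poly.decide_le (NPC.Poly.const 1) (NPC.Poly.snd NPC.Poly.id))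
      (NPC.Poly.decide_le (NPC.Poly.snd NPC.Poly.id)
        (NPC.Poly.mul (hn.comp (NPC.Poly.fst NPC.Poly.id)) (hn.comp (NPC.Poly.fst NPC.Poly.id)))))

theorem poly_cerB {n : α → ℕ} {w : α → List (ℕ × ℕ)} (hn : Poly n) (hw : Poly w) :
    Poly (fun a => cerB (n a) (w a)) := by
  unfold cerB
  refine NPC.Poly.and (NPC.Poly.decide_eq (NPC.Poly.length hw) (NPC.Poly.mul hn hn))
    (NPC.Poly.and (NPC.Poly.decide_eq (Pool.Agent.Y578.OL.poly_dedup hw) hw) ?_)
  exact NPC.Poly.all (p := fun a c => decide (c.1 + 1 ≤ n a) && decide (c.2 + 1 ≤ n a)) hw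
    (NPC.Poly.and (NPC.Poly.decide_le (NPC.Poly.succ (NPC.Poly.fst (NPC.Poly.snd NPC.Poly.id)))
        (hn.comp (NPC.Poly.fst NPC.Poly.id)))
      (NPC.Poly.decide_le (NPC.Poly.succ (NPC.Poly.snd (NPC.Poly.snd NPC.Poly.id)))
        (hn.comp (NPC.Poly.fst NPC.Poly.id))))

attribute [irreducible] adB posOf in
theorem poly_chain {w : α → List (ℕ × ℕ)} {v : α → List ℕ} (hw : Poly w) (hv : Poly v) :
    Poly (fun a => ((v a).zip (v a).tail).all
      (fun e => adB (posOf (w a) e.1) (posOf (w a) e.2))) := by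
  have h1 : Poly (fun q : α × (ℕ × ℕ) => w q.1) := hw.comp (NPC.Poly.fst NPC.Poly.id)
  have h2 : Poly (fun q : α × (ℕ × ℕ) => q.2.1) := NPC.Poly.fst (NPC.Poly.snd NPC.Poly.id)
  have h3 : Poly (fun q : α × (ℕ × ℕ) => q.2.2) := NPC.Poly.snd (NPC.Poly.snd NPC.Poly.id)
  exact NPC.Poly.all (p := fun a e => adB (posOf (w a) e.1) (posOf (w a) e.2))
    (NPC.Poly.zip hv (NPC.Poly.tail hv)) (poly_adB (poly_posOf h1 h2) (poly_posOf h1 h3))

attribute [irreducible] legB cerB in
theorem poly_R : Poly R := by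
  unfold R
  have hI : Poly (fun p : Inst × List (ℕ × ℕ) => p.1) := NPC.Poly.fst NPC.Poly.id
  have hI2 : Poly (fun p : Inst × List (ℕ × ℕ) => p.1.2) := NPC.Poly.snd hI
  have hn : Poly (fun p : Inst × List (ℕ × ℕ) => p.1.1.length) :=
    NPC.Poly.length (NPC.Poly.fst hI)
  have hw : Poly (fun p : Inst × List (ℕ × ℕ) => p.2) := NPC.Poly.snd NPC.Poly.id
  refine NPC.Poly.and ?_ (NPC.Poly.and (poly_cerB hn hw) ?_)
  · exact NPC.Poly.all (p := fun (p : Inst × List (ℕ × ℕ)) v => legB p.1.1.length v) hI2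
      (poly_legB (hn.comp (NPC.Poly.fst NPC.Poly.id)) (NPC.Poly.snd NPC.Poly.id))
  · unfold worB
    refine NPC.Poly.all (p := fun (p : Inst × List (ℕ × ℕ)) v =>
      (v.zip v.tail).all (fun e => adB (posOf p.2 e.1) (posOf p.2 e.2))) hI2 ?_
    exact poly_chain (hw.comp (NPC.Poly.fst NPC.Poly.id)) (NPC.Poly.snd NPC.Poly.id)

end poly

theorem legB_iff (n : ℕ) (v : List ℕ) : legB n v = true ↔
    2 ≤ v.length ∧ v.Nodup ∧ ∀ x ∈ v, 1 ≤ x ∧ x ≤ n ^ 2 := by
  unfold legB
  simp only [Bool.and_eq_true, decide_eq_true_eq, List.all_eq_true, List.dedup_eq_self, pow_two]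

theorem cerB_iff (n : ℕ) (w : List (ℕ × ℕ)) : cerB n w = true ↔
    w.length = n ^ 2 ∧ w.Nodup ∧ ∀ c ∈ w, c.1 < n ∧ c.2 < n := by
  unfold cerB
  simp only [Bool.and_eq_true, decide_eq_true_eq, List.all_eq_true, List.dedup_eq_self, pow_two]
  rfl

theorem worB_iff (I : Inst) (w : List (ℕ × ℕ)) : worB I w = true ↔
    ∀ v ∈ I.2, v.IsChain (fun x y => Ad (posOf w x) (posOf w y)) := by
  unfold worB
  simp only [List.all_eq_true, adB_iff, chain_zip]

theorem R_iff (I : Inst) (w : List (ℕ × ℕ)) : R (I, w) = true ↔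
    Legal I ∧ (w.length = side I ^ 2 ∧ w.Nodup ∧ ∀ c ∈ w, c.1 < side I ∧ c.2 < side I) ∧
      ∀ v ∈ I.2, v.IsChain (fun x y => Ad (posOf w x) (posOf w y)) := by
  unfold R Legal
  rw [Bool.and_eq_true, Bool.and_eq_true, worB_iff, cerB_iff]
  simp only [List.all_eq_true, legB_iff]
  rfl

theorem exists_iff (I : Inst) : BoggleSolve I ↔
    ∃ w : List (ℕ × ℕ), sz w ≤ (Polynomial.X ^ 2 * (8 * Polynomial.X + 4) + 1 : Polynomial ℕ).eval
      (sz I) ∧ R (I, w) = true := by
  constructor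
  · rintro ⟨hL, B, hB, hw⟩
    obtain ⟨n, hn⟩ : ∃ n, n = side I := ⟨_, rfl⟩
    have hpos : ∀ x, 1 ≤ x → x ≤ side I ^ 2 →
        posOf ((List.range (side I ^ 2)).map (fun k => cell B (k + 1))) x = cell B x := by
      intro x h1 h2
      unfold posOf
      rw [List.getD_eq_getElem _ _ (by simp; omega)]
      simp only [List.getElem_map, List.getElem_range]
      rw [show x - 1 + 1 = x by omega]
    have hlt : ∀ c ∈ (List.range (side I ^ 2)).map (fun k => cell B (k + 1)),
        c.1 < side I ∧ c.2 < side I := by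
      intro c hc
      rw [List.mem_map] at hc
      obtain ⟨k, hk, rfl⟩ := hc
      rw [List.mem_range] at hk
      exact cell_lt hB (by omega) (by omega)
    refine ⟨(List.range (side I ^ 2)).map (fun k => cell B (k + 1)), ?_, ?_⟩
    · have h1 := sz_le_length_mul ((List.range (side I ^ 2)).map (fun k => cell B (k + 1)))
        (8 * side I + 3) (by
          intro c hc
          obtain ⟨h1, h2⟩ := hlt c hc
          have a1 := sz_nat_le c.1
          have a2 := sz_nat_le c.2
          have a3 : c.1.size ≤ c.1 := Nat.size_le.2 Nat.lt_two_pow_self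
          have a4 : c.2.size ≤ c.2 := Nat.size_le.2 Nat.lt_two_pow_self
          have a5 : sz c = sz c.1 + sz c.2 + 1 := sz_pair c.1 c.2
          omega)
      have h2 : side I ≤ sz I := by
        have b1 := length_lt_sz I.1
        have b2 : sz I = sz I.1 + sz I.2 + 1 := sz_pair I.1 I.2
        have b3 : side I = I.1.length := rfl
        omega
      rw [List.length_map, List.length_range] at h1
      refine h1.trans ?_
      simp only [Polynomial.eval_add, Polynomial.eval_mul, Polynomial.eval_pow, Polynomial.eval_X,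
        Polynomial.eval_ofNat, Polynomial.eval_one]
      have h3 : side I ^ 2 ≤ sz I ^ 2 := Nat.pow_le_pow_left h2 2
      have h4 : side I ^ 2 * (8 * side I + 4) ≤ sz I ^ 2 * (8 * sz I + 4) :=
        Nat.mul_le_mul h3 (by omega)
      first
        | omega
        | nlinarith
    · rw [R_iff]
      refine ⟨hL, ⟨by simp, ?_, hlt⟩, ?_⟩
      · apply List.Nodup.map_on _ List.nodup_range
        intro x hx y hy h
        rw [List.mem_range] at hx hy
        have := cell_inj hB (by omega) (by omega) (by omega) (by omega) h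
        omega
      · intro v hv
        have h1 := hw v hv
        unfold Occurs at h1
        rw [chain_zip] at h1 ⊢
        intro e he
        have h2 := Ad_cell hB (h1 e he)
        have h3 := (hL v hv).2.2
        have m1 : e.1 ∈ v := (List.of_mem_zip he).1
        have m2 : e.2 ∈ v := List.mem_of_mem_tail (List.of_mem_zip he).2
        rw [hpos _ (h3 _ m1).1 (h3 _ m1).2, hpos _ (h3 _ m2).1 (h3 _ m2).2]
        exact h2
  · rintro ⟨w, -, hR⟩
    rw [R_iff] at hR
    obtain ⟨hL, ⟨h1, h2, h3⟩, h4⟩ := hR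
    refine ⟨hL, ?_⟩
    have hpos : ∀ l (hl0 : 1 ≤ l) (hl : l ≤ side I ^ 2), posOf w l = w[l - 1]'(by omega) := by
      intro l hl1 hl2
      unfold posOf
      rw [List.getD_eq_getElem]
    obtain ⟨B, hB1, hB2⟩ := board_of (n := side I) (posOf w) (by
      intro l hl1 hl2
      rw [hpos l hl1 hl2]
      exact h3 _ (List.getElem_mem _)) (by
      intro l hl1 hl2 l' hl1' hl2' he
      rw [hpos l hl1 hl2, hpos l' hl1' hl2'] at he
      have := (List.Nodup.getElem_inj_iff h2).1 he
      omega)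
    refine ⟨B, hB1, ?_⟩
    intro v hv
    have h5 := h4 v hv
    have h6 := (hL v hv).2.2
    unfold Occurs
    rw [chain_zip] at h5 ⊢
    intro e he
    have m1 : e.1 ∈ v := (List.of_mem_zip he).1
    have m2 : e.2 ∈ v := List.mem_of_mem_tail (List.of_mem_zip he).2
    exact hB2 _ _ (h6 _ m1).1 (h6 _ m1).2 (h6 _ m2).1 (h6 _ m2).2 (h5 e he)

/-- BOGGLE-SOLVE is in NP. -/
theorem inNP : InNPP BoggleSolve := inNPP_of poly_R _ exists_iff

end Pool.Agent.Q226.Bog
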