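import Mathlib

set_option autoImplicit false

/-! Embedding strips of width two into a square board. -/

namespace Pool.Agent.Q226.Bog

open Finset

/-- adjacency of cells -/
def Ad (p q : ℕ × ℕ) : Prop :=
  ¬ (p.1 = q.1 ∧ p.2 = q.2) ∧ p.1 ≤ q.1 + 1 ∧ q.1 ≤ p.1 + 1 ∧ p.2 ≤ q.2 + 1 ∧ q.2 ≤ p.2 + 1

theorem Ad.symm {p q : ℕ × ℕ} (h : Ad p q) : Ad q p := by
  unfold Ad at *
  omega

theorem Ad.swap {p q : ℕ × ℕ} (h : Ad p q) : Ad p.swap q.swap := by
  unfold Ad at *
  simp only [Prod.fst_swap, Prod.snd_swap]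
  omega

/-- the two cells are in the same column and in the rows `p` and `p + 1` -/
def VP (p : ℕ) (a b : ℕ × ℕ) : Prop :=
  a.2 = b.2 ∧ (a.1 = p ∧ b.1 = p + 1 ∨ a.1 = p + 1 ∧ b.1 = p)

/-- one cell next to both cells of a vertical pair -/
theorem vnear {p : ℕ} {a1 a2 b : ℕ × ℕ} (h : VP p a1 a2) (h1 : Ad a1 b) (h2 : Ad a2 b) :
    (b.1 = p ∨ b.1 = p + 1) ∧ (b.2 = a1.2 + 1 ∨ b.2 + 1 = a1.2) := by
  obtain ⟨x1, y1⟩ := a1
  obtain ⟨x2, y2⟩ := a2
  obtain ⟨z1, w1⟩ := b
  unfold VP Ad at *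
  simp only at *
  obtain ⟨rfl, h⟩ := h
  rcases h with ⟨rfl, rfl⟩ | ⟨rfl, rfl⟩ <;> omega

theorem vstep {p : ℕ} {a1 a2 b1 b2 : ℕ × ℕ} (h : VP p a1 a2) (h11 : Ad a1 b1) (h12 : Ad a1 b2)
    (h21 : Ad a2 b1) (h22 : Ad a2 b2) (hb : Ad b1 b2) : VP p b1 b2 := by
  have e1 := vnear h h11 h21
  have e2 := vnear h h12 h22
  clear h h11 h12 h21 h22
  unfold VP Ad at *
  omega

theorem nondiag {a1 a2 b1 b2 d : ℕ × ℕ} (ha : Ad a1 a2) (h11 : Ad a1 b1) (h12 : Ad a1 b2)
    (h21 : Ad a2 b1) (h22 : Ad a2 b2) (h13 : Ad a1 d) (h23 : Ad a2 d)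
    (hb : ¬ (b1.1 = b2.1 ∧ b1.2 = b2.2)) (hd1 : ¬ (b1.1 = d.1 ∧ b1.2 = d.2))
    (hd2 : ¬ (b2.1 = d.1 ∧ b2.2 = d.2)) : a1.1 = a2.1 ∨ a1.2 = a2.2 := by
  obtain ⟨x1, y1⟩ := a1
  obtain ⟨x2, y2⟩ := a2
  obtain ⟨z1, w1⟩ := b1
  obtain ⟨z2, w2⟩ := b2
  obtain ⟨z3, w3⟩ := d
  unfold Ad at *
  simp only at *
  omega

/-- a strip: all its edges -/
structure Strip (n : ℕ) (s : ℕ → ℕ → ℕ × ℕ) : Prop where
  col : ∀ c < n, Ad (s 0 c) (s 1 c)
  e00 : ∀ c, c + 1 < n → Ad (s 0 c) (s 0 (c + 1))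
  e01 : ∀ c, c + 1 < n → Ad (s 0 c) (s 1 (c + 1))
  e10 : ∀ c, c + 1 < n → Ad (s 1 c) (s 0 (c + 1))
  e11 : ∀ c, c + 1 < n → Ad (s 1 c) (s 1 (c + 1))
  inj : ∀ a < 2, ∀ c < n, ∀ a' < 2, ∀ c' < n, s a c = s a' c' → a = a' ∧ c = c'

theorem Strip.swap {n : ℕ} {s : ℕ → ℕ → ℕ × ℕ} (h : Strip n s) :
    Strip n (fun a c => (s a c).swap) :=
  ⟨fun c hc => (h.col c hc).swap, fun c hc => (h.e00 c hc).swap, fun c hc => (h.e01 c hc).swap,
    fun c hc => (h.e10 c hc).swap, fun c hc => (h.e11 c hc).swap,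
    fun a ha c hc a' ha' c' hc' he => h.inj a ha c hc a' ha' c' hc' (Prod.swap_injective he)⟩

theorem Strip.prop {n : ℕ} {s : ℕ → ℕ → ℕ × ℕ} (h : Strip n s) {p : ℕ} {c0 : ℕ} (hc0 : c0 < n)
    (h0 : VP p (s 0 c0) (s 1 c0)) : ∀ c < n, VP p (s 0 c) (s 1 c) := by
  have up : ∀ m, c0 + m < n → VP p (s 0 (c0 + m)) (s 1 (c0 + m)) := by
    intro m
    induction m with
    | zero => intro _; exact h0
    | succ m ih =>
      intro hm
      exact vstep (ih (by omega)) (h.e00 _ hm) (h.e01 _ hm) (h.e10 _ hm) (h.e11 _ hm) (h.col _ hm)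
  have down : ∀ m, m ≤ c0 → VP p (s 0 (c0 - m)) (s 1 (c0 - m)) := by
    intro m
    induction m with
    | zero => intro _; exact h0
    | succ m ih =>
      intro hm
      have e : c0 - m = (c0 - (m + 1)) + 1 := by omega
      have hl : (c0 - (m + 1)) + 1 < n := by omega
      have ih' := ih (by omega)
      rw [e] at ih'
      exact vstep ih' (h.e00 _ hl).symm (h.e10 _ hl).symm (h.e01 _ hl).symm (h.e11 _ hl).symm
        (h.col _ (by omega))
  intro c hc
  rcases le_total c0 c with hle | hle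
  · have := up (c - c0) (by omega)
    rwa [show c0 + (c - c0) = c by omega] at this
  · have := down (c0 - c) (by omega)
    rwa [show c0 - (c0 - c) = c by omega] at this

theorem Strip.straight {n : ℕ} (hn : 3 ≤ n) {s : ℕ → ℕ → ℕ × ℕ} (h : Strip n s) :
    (∃ p, ∀ c < n, VP p (s 0 c) (s 1 c)) ∨
      ∃ p, ∀ c < n, VP p (s 0 c).swap (s 1 c).swap := by
  have hne : ∀ a < 2, ∀ c < n, ∀ a' < 2, ∀ c' < n, ¬ (a = a' ∧ c = c') →
      ¬ ((s a c).1 = (s a' c').1 ∧ (s a c).2 = (s a' c').2) := by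
    intro a ha c hc a' ha' c' hc' h1 h2
    exact h1 (h.inj a ha c hc a' ha' c' hc' (Prod.ext h2.1 h2.2))
  have h1 := nondiag (h.col 1 (by omega)) (h.e00 0 (by omega)).symm (h.e10 0 (by omega)).symm
    (h.e01 0 (by omega)).symm (h.e11 0 (by omega)).symm (h.e00 1 (by omega)) (h.e10 1 (by omega))
    (hne 0 (by omega) 0 (by omega) 1 (by omega) 0 (by omega) (by omega))
    (hne 0 (by omega) 0 (by omega) 0 (by omega) 2 (by omega) (by omega))
    (hne 1 (by omega) 0 (by omega) 0 (by omega) 2 (by omega) (by omega))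
  have hcol := h.col 1 (by omega)
  rcases h1 with h1 | h1
  · right
    refine ⟨min (s 0 1).2 (s 1 1).2, h.swap.prop (c0 := 1) (by omega) ?_⟩
    unfold VP Ad at *
    simp only [Prod.fst_swap, Prod.snd_swap]
    omega
  · left
    refine ⟨min (s 0 1).1 (s 1 1).1, h.prop (c0 := 1) (by omega) ?_⟩
    unfold VP Ad at *
    omega

/-- a horizontal strip on a board of side `n` fills its two rows -/
theorem Strip.full {n : ℕ} {s : ℕ → ℕ → ℕ × ℕ} (h : Strip n s) {p : ℕ}
    (hp : ∀ c < n, VP p (s 0 c) (s 1 c)) (hlt : ∀ a < 2, ∀ c < n, (s a c).2 < n) :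
    ∀ r, r = p ∨ r = p + 1 → ∀ y < n, ∃ a < 2, ∃ c < n, s a c = (r, y) := by
  have hr : ∀ a < 2, ∀ c < n, (s a c).1 = p ∨ (s a c).1 = p + 1 := by
    intro a ha c hc
    have := hp c hc
    unfold VP at this
    have ha' : a = 0 ∨ a = 1 := by omega
    rcases ha' with rfl | rfl
    · omega
    · omega
  have h1 : ((range 2 ×ˢ range n).image (fun q => s q.1 q.2)) ⊆ ({p, p + 1} : Finset ℕ) ×ˢ range n := by
    intro q hq
    rw [Finset.mem_image] at hq
    obtain ⟨⟨a, c⟩, hac, rfl⟩ := hq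
    rw [Finset.mem_product, Finset.mem_range, Finset.mem_range] at hac
    rw [Finset.mem_product, Finset.mem_insert, Finset.mem_singleton, Finset.mem_range]
    exact ⟨hr a hac.1 c hac.2, hlt a hac.1 c hac.2⟩
  have h2 : ((range 2 ×ˢ range n).image (fun q => s q.1 q.2)).card = 2 * n := by
    rw [Finset.card_image_of_injOn, Finset.card_product, Finset.card_range, Finset.card_range]
    rintro ⟨a, c⟩ hac ⟨a', c'⟩ hac' he
    rw [Finset.mem_coe, Finset.mem_product, Finset.mem_range, Finset.mem_range] at hac hac'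
    obtain ⟨e1, e2⟩ := h.inj a hac.1 c hac.2 a' hac'.1 c' hac'.2 he
    rw [e1, e2]
  have h3 : (({p, p + 1} : Finset ℕ) ×ˢ range n).card = 2 * n := by
    rw [Finset.card_product, Finset.card_range, Finset.card_pair (by omega)]
  have h4 := Finset.eq_of_subset_of_card_le h1 (by rw [h2, h3])
  intro r hr y hy
  have : (r, y) ∈ ({p, p + 1} : Finset ℕ) ×ˢ range n := by
    rw [Finset.mem_product, Finset.mem_insert, Finset.mem_singleton, Finset.mem_range]
    exact ⟨hr, hy⟩
  rw [← h4, Finset.mem_image] at this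
  obtain ⟨⟨a, c⟩, hac, he⟩ := this
  rw [Finset.mem_product, Finset.mem_range, Finset.mem_range] at hac
  exact ⟨a, hac.1, c, hac.2, he⟩

/-! ### the whole configuration -/

/-- An embedding of the letters of the strips (`s j a c`), of the connecting letters (`x j`) and of the
other letters (`y m`) into the board. -/
structure Conf (G n : ℕ) (s : ℕ → ℕ → ℕ → ℕ × ℕ) (x : ℕ → ℕ × ℕ) (y : ℕ → ℕ × ℕ) : Prop where
  strip : ∀ j ≤ G, Strip n (s j)
  sinj : ∀ j ≤ G, ∀ a < 2, ∀ c < n, ∀ j' ≤ G, ∀ a' < 2, ∀ c' < n, s j a c = s j' a' c' → j = j'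
  xinj : ∀ j < G, ∀ j' < G, x j = x j' → j = j'
  sx : ∀ j ≤ G, ∀ a < 2, ∀ c < n, ∀ j' < G, s j a c ≠ x j'
  sy : ∀ j ≤ G, ∀ a < 2, ∀ c < n, ∀ m < G * (n - 1), s j a c ≠ y m
  xy : ∀ j < G, ∀ m < G * (n - 1), x j ≠ y m
  yinj : ∀ m < G * (n - 1), ∀ m' < G * (n - 1), y m = y m' → m = m'
  slt : ∀ j ≤ G, ∀ a < 2, ∀ c < n, (s j a c).1 < n ∧ (s j a c).2 < n
  xlt : ∀ j < G, (x j).1 < n ∧ (x j).2 < n
  ylt : ∀ m < G * (n - 1), (y m).1 < n ∧ (y m).2 < n
  x1 : ∀ j < G, Ad (s j 1 0) (x j)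
  x2 : ∀ j < G, Ad (x j) (s (j + 1) 0 0)

theorem Conf.swap {G n : ℕ} {s : ℕ → ℕ → ℕ → ℕ × ℕ} {x : ℕ → ℕ × ℕ} {y : ℕ → ℕ × ℕ}
    (h : Conf G n s x y) :
    Conf G n (fun j a c => (s j a c).swap) (fun j => (x j).swap) (fun m => (y m).swap) :=
  ⟨fun j hj => (h.strip j hj).swap,
    fun j hj a ha c hc j' hj' a' ha' c' hc' he =>
      h.sinj j hj a ha c hc j' hj' a' ha' c' hc' (Prod.swap_injective he),
    fun j hj j' hj' he => h.xinj j hj j' hj' (Prod.swap_injective he),
    fun j hj a ha c hc j' hj' he => h.sx j hj a ha c hc j' hj' (Prod.swap_injective he),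
    fun j hj a ha c hc j' hj' he => h.sy j hj a ha c hc j' hj' (Prod.swap_injective he),
    fun j hj m hm he => h.xy j hj m hm (Prod.swap_injective he),
    fun m hm m' hm' he => h.yinj m hm m' hm' (Prod.swap_injective he),
    fun j hj a ha c hc => (h.slt j hj a ha c hc).symm,
    fun j hj => (h.xlt j hj).symm,
    fun m hm => (h.ylt m hm).symm,
    fun j hj => (h.x1 j hj).swap, fun j hj => (h.x2 j hj).swap⟩

/-- the case in which the first strip is horizontal -/
theorem Conf.rows {G n : ℕ} (hn : n = 3 * G + 2) (hG : 1 ≤ G) {s : ℕ → ℕ → ℕ → ℕ × ℕ}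
    {x : ℕ → ℕ × ℕ} {y : ℕ → ℕ × ℕ} (h : Conf G n s x y)
    (h0 : ∃ p, ∀ c < n, VP p (s 0 0 c) (s 0 1 c)) :
    ∃ r : ℕ → ℕ, (∀ j < G, (x j).1 = r j) ∧ (∀ j < G, ∀ j' < G, r j = r j' → j = j') ∧
      (∀ m < G * (n - 1), ∃ j < G, (y m).1 = r j) ∧
      ∀ m < G * (n - 1), ∀ m' < G * (n - 1), Ad (y m) (y m') → (y m).1 = (y m').1 := by
  obtain ⟨p0, hp0⟩ := h0
  have hfull0 := (h.strip 0 (by omega)).full hp0
    (fun a ha c hc => (h.slt 0 (by omega) a ha c hc).2)
  -- all strips are horizontal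
  have hall : ∀ j, ∃ p, j ≤ G → ∀ c < n, VP p (s j 0 c) (s j 1 c) := by
    intro j
    by_cases hj : j ≤ G
    · rcases (h.strip j hj).straight (by omega) with ⟨p, hp⟩ | ⟨q, hq⟩
      · exact ⟨p, fun _ => hp⟩
      · -- vertical: it meets strip 0
        exfalso
        have hj0 : j ≠ 0 := by
          rintro rfl
          have e1 := hp0 0 (by omega)
          have e2 := hq 0 (by omega)
          unfold VP at e1 e2
          simp only [Prod.fst_swap, Prod.snd_swap] at e2
          omega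
        have hfullj := (h.strip j hj).swap.full hq
          (fun a ha c hc => (h.slt j hj a ha c hc).1)
        have hp0n : p0 < n := by
          have e1 := hp0 0 (by omega)
          have e2 := (h.slt 0 (by omega) 0 (by omega) 0 (by omega)).1
          have e3 := (h.slt 0 (by omega) 1 (by omega) 0 (by omega)).1
          unfold VP at e1
          omega
        have hqn : q < n := by
          have e1 := hq 0 (by omega)
          have e2 := (h.slt j hj 0 (by omega) 0 (by omega)).2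
          have e3 := (h.slt j hj 1 (by omega) 0 (by omega)).2
          unfold VP at e1
          simp only [Prod.fst_swap, Prod.snd_swap] at e1
          omega
        obtain ⟨a, ha, c, hc, e1⟩ := hfull0 p0 (Or.inl rfl) q hqn
        obtain ⟨a', ha', c', hc', e2⟩ := hfullj q (Or.inl rfl) p0 hp0n
        have e3 : s j a' c' = (p0, q) := by
          have := congrArg Prod.swap e2
          simpa using this
        exact hj0 (h.sinj j hj a' ha' c' hc' 0 (by omega) a ha c hc (by rw [e3, e1]))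
    · exact ⟨0, fun h' => absurd h' hj⟩
  choose p hp using hall
  have hfull : ∀ j ≤ G, ∀ r, r = p j ∨ r = p j + 1 → ∀ y < n, ∃ a < 2, ∃ c < n, s j a c = (r, y) :=
    fun j hj => (h.strip j hj).full (hp j hj) (fun a ha c hc => (h.slt j hj a ha c hc).2)
  have hrow : ∀ j ≤ G, ∀ a < 2, ∀ c < n, (s j a c).1 = p j ∨ (s j a c).1 = p j + 1 := by
    intro j hj a ha c hc
    have := hp j hj c hc
    unfold VP at this
    have ha' : a = 0 ∨ a = 1 := by omega
    rcases ha' with rfl | rfl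
    · omega
    · omega
  have hpn : ∀ j ≤ G, p j + 1 < n := by
    intro j hj
    have e1 := hp j hj 0 (by omega)
    have e2 := (h.slt j hj 0 (by omega) 0 (by omega)).1
    have e3 := (h.slt j hj 1 (by omega) 0 (by omega)).1
    unfold VP at e1
    omega
  -- rows of different strips are different
  have hdis : ∀ i ≤ G, ∀ j ≤ G, ∀ r, (r = p i ∨ r = p i + 1) → (r = p j ∨ r = p j + 1) → i = j := by
    intro i hi j hj r h1 h2
    obtain ⟨a, ha, c, hc, e1⟩ := hfull i hi r h1 0 (by omega)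
    obtain ⟨a', ha', c', hc', e2⟩ := hfull j hj r h2 0 (by omega)
    exact h.sinj i hi a ha c hc j hj a' ha' c' hc' (by rw [e1, e2])
  -- cells outside the strips are not in the rows of the strips
  have hxr : ∀ j < G, ∀ i ≤ G, (x j).1 ≠ p i ∧ (x j).1 ≠ p i + 1 := by
    intro j hj i hi
    by_contra hcon
    have h1 : (x j).1 = p i ∨ (x j).1 = p i + 1 := by
      by_cases e : (x j).1 = p i
      · exact Or.inl e
      · exact Or.inr (by_contra fun e' => hcon ⟨e, e'⟩)
    obtain ⟨a, ha, c, hc, e1⟩ := hfull i hi _ h1 (x j).2 (h.xlt j hj).2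
    exact h.sx i hi a ha c hc j hj (by rw [e1])
  have hyr : ∀ m < G * (n - 1), ∀ i ≤ G, (y m).1 ≠ p i ∧ (y m).1 ≠ p i + 1 := by
    intro j hj i hi
    by_contra hcon
    have h1 : (y j).1 = p i ∨ (y j).1 = p i + 1 := by
      by_cases e : (y j).1 = p i
      · exact Or.inl e
      · exact Or.inr (by_contra fun e' => hcon ⟨e, e'⟩)
    obtain ⟨a, ha, c, hc, e1⟩ := hfull i hi _ h1 (y j).2 (h.ylt j hj).2
    exact h.sy i hi a ha c hc j hj (by rw [e1])
  -- position of `x j`
  have hx : ∀ j < G, ((x j).1 + 1 = p j ∧ (x j).1 = p (j + 1) + 2) ∨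
      ((x j).1 + 1 = p (j + 1) ∧ (x j).1 = p j + 2) := by
    intro j hj
    have a1 := h.x1 j hj
    have a2 := h.x2 j hj
    have b1 := hrow j (by omega) 1 (by omega) 0 (by omega)
    have b2 := hrow (j + 1) (by omega) 0 (by omega) 0 (by omega)
    have c1 := hxr j hj j (by omega)
    have c2 := hxr j hj (j + 1) (by omega)
    have d : p j ≠ p (j + 1) := by
      intro e
      have := hdis j (by omega) (j + 1) (by omega) (p j) (Or.inl rfl) (Or.inl e)
      omega
    unfold Ad at a1 a2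
    omega
  have hpinj : ∀ i ≤ G, ∀ j ≤ G, p i = p j → i = j := fun i hi j hj e =>
    hdis i hi j hj (p i) (Or.inl rfl) (Or.inl e)
  have hrinj : ∀ j < G, ∀ j' < G, (x j).1 = (x j').1 → j = j' := by
    have key : ∀ i < G, ∀ j < G, i < j → (x i).1 ≠ (x j).1 := by
      intro i hi j hj hij e
      have h1 := hx i hi
      have h2 := hx j hj
      have c1 : p i ≠ p j := fun e => by have := hpinj i (by omega) j (by omega) e; omega
      have c2 : p i ≠ p (j + 1) := fun e => by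
        have := hpinj i (by omega) (j + 1) (by omega) e; omega
      have c3 : p (i + 1) ≠ p (j + 1) := fun e => by
        have := hpinj (i + 1) (by omega) (j + 1) (by omega) e; omega
      omega
    intro i hi j hj e
    rcases lt_trichotomy i j with h1 | h1 | h1
    · exact absurd e (key i hi j hj h1)
    · exact h1
    · exact absurd e.symm (key j hj i hi h1)
  -- the rows which are not rows of strips
  have hN : ∀ r < n, (∀ i ≤ G, r ≠ p i ∧ r ≠ p i + 1) → ∃ j < G, r = (x j).1 := by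
    obtain ⟨N, hNd⟩ : ∃ N, N = (range n).filter (fun r => ∀ i ≤ G, r ≠ p i ∧ r ≠ p i + 1) := ⟨_, rfl⟩
    obtain ⟨Q, hQd⟩ : ∃ Q, Q = (range (G + 1)).image p ∪ (range (G + 1)).image (fun i => p i + 1) :=
      ⟨_, rfl⟩
    have hQc : Q.card = 2 * (G + 1) := by
      rw [hQd, Finset.card_union_of_disjoint, Finset.card_image_of_injOn,
        Finset.card_image_of_injOn, Finset.card_range]
      · ring
      · intro i hi j hj e
        rw [Finset.mem_coe, Finset.mem_range] at hi hj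
        exact hpinj i (by omega) j (by omega) (by simpa using e)
      · intro i hi j hj e
        rw [Finset.mem_coe, Finset.mem_range] at hi hj
        exact hpinj i (by omega) j (by omega) e
      · rw [Finset.disjoint_left]
        intro r h1 h2
        rw [Finset.mem_image] at h1 h2
        obtain ⟨i, hi, e1⟩ := h1
        obtain ⟨j, hj, e2⟩ := h2
        rw [Finset.mem_range] at hi hj
        have := hdis i (by omega) j (by omega) r (Or.inl e1.symm) (Or.inr e2.symm)
        subst this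
        omega
    have hQsub : Q ⊆ range n := by
      intro r hr
      rw [hQd, Finset.mem_union, Finset.mem_image, Finset.mem_image] at hr
      rw [Finset.mem_range]
      rcases hr with ⟨i, hi, rfl⟩ | ⟨i, hi, rfl⟩
      · rw [Finset.mem_range] at hi
        have := hpn i (by omega)
        omega
      · rw [Finset.mem_range] at hi
        exact hpn i (by omega)
    have hNQ : N = range n \ Q := by
      ext r
      rw [hNd, hQd, Finset.mem_filter, Finset.mem_sdiff, Finset.mem_union, Finset.mem_image,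
        Finset.mem_image]
      constructor
      · rintro ⟨h1, h2⟩
        refine ⟨h1, ?_⟩
        rintro (⟨i, hi, e⟩ | ⟨i, hi, e⟩)
        · rw [Finset.mem_range] at hi
          exact (h2 i (by omega)).1 e.symm
        · rw [Finset.mem_range] at hi
          exact (h2 i (by omega)).2 e.symm
      · rintro ⟨h1, h2⟩
        refine ⟨h1, fun i hi => ⟨fun e => h2 (Or.inl ⟨i, ?_, e.symm⟩),
          fun e => h2 (Or.inr ⟨i, ?_, e.symm⟩)⟩⟩
        · rw [Finset.mem_range]; omega
        · rw [Finset.mem_range]; omega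
    have hNc : N.card = G := by
      rw [hNQ, Finset.card_sdiff_of_subset hQsub, hQc, Finset.card_range]
      omega
    have himg : (range G).image (fun j => (x j).1) ⊆ N := by
      intro r hr
      rw [Finset.mem_image] at hr
      obtain ⟨j, hj, rfl⟩ := hr
      rw [Finset.mem_range] at hj
      rw [hNd, Finset.mem_filter, Finset.mem_range]
      exact ⟨(h.xlt j hj).1, hxr j hj⟩
    have hic : ((range G).image (fun j => (x j).1)).card = G := by
      rw [Finset.card_image_of_injOn, Finset.card_range]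
      intro i hi j hj e
      rw [Finset.mem_coe, Finset.mem_range] at hi hj
      exact hrinj i hi j hj e
    have heq := Finset.eq_of_subset_of_card_le himg (by rw [hNc, hic])
    intro r hr h1
    have : r ∈ N := by
      rw [hNd, Finset.mem_filter, Finset.mem_range]
      exact ⟨hr, h1⟩
    rw [← heq, Finset.mem_image] at this
    obtain ⟨j, hj, e⟩ := this
    exact ⟨j, Finset.mem_range.1 hj, e.symm⟩
  refine ⟨fun j => (x j).1, fun _ _ => rfl, hrinj, ?_, ?_⟩
  · intro m hm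
    exact hN _ (h.ylt m hm).1 (hyr m hm)
  · intro m hm m' hm' ha
    obtain ⟨j, hj, e⟩ := hN _ (h.ylt m hm).1 (hyr m hm)
    have h1 := hx j hj
    have h2 := hyr m' hm' j (by omega)
    have h3 := hyr m' hm' (j + 1) (by omega)
    unfold Ad at ha
    omega

/-- the rows version or the columns version -/
theorem Conf.lines {G n : ℕ} (hn : n = 3 * G + 2) (hG : 1 ≤ G) {s : ℕ → ℕ → ℕ → ℕ × ℕ}
    {x : ℕ → ℕ × ℕ} {y : ℕ → ℕ × ℕ} (h : Conf G n s x y) :
    ∃ (t : ℕ × ℕ → ℕ × ℕ) (r : ℕ → ℕ), Function.Injective t ∧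
      (∀ j < G, (t (x j)).1 = r j ∧ (t (x j)).2 < n) ∧
      (∀ j < G, ∀ j' < G, r j = r j' → j = j') ∧
      (∀ m < G * (n - 1), (t (y m)).2 < n ∧ ∃ j < G, (t (y m)).1 = r j) ∧
      ∀ m < G * (n - 1), ∀ m' < G * (n - 1), Ad (y m) (y m') → (t (y m)).1 = (t (y m')).1 := by
  rcases (h.strip 0 (by omega)).straight (by omega) with h0 | h0
  · obtain ⟨r, h1, h2, h3, h4⟩ := h.rows hn hG h0
    exact ⟨id, r, Function.injective_id, fun j hj => ⟨h1 j hj, (h.xlt j hj).2⟩, h2,
      fun m hm => ⟨(h.ylt m hm).2, h3 m hm⟩, h4⟩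
  · obtain ⟨r, h1, h2, h3, h4⟩ := h.swap.rows hn hG h0
    exact ⟨Prod.swap, r, Prod.swap_injective, fun j hj => ⟨h1 j hj, (h.xlt j hj).1⟩, h2,
      fun m hm => ⟨(h.ylt m hm).1, h3 m hm⟩, fun m hm m' hm' ha => h4 m hm m' hm' ha.swap⟩

end Pool.Agent.Q226.Bog
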