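import Pool.Agent.Q226.Bog.Defs
import Pool.Agent.Q226.Bog.Strip

set_option autoImplicit false

/-! The puzzle belonging to a list of item sizes. -/

namespace Pool.Agent.Q226.Bog

open Finset

/-- code of the letter of strip `j`, row `a`, column `c` -/
def cS (n j a c : ℕ) : ℕ := (2 * j + a) * n + c + 1
/-- code of a connecting letter -/
def cX (G n j : ℕ) : ℕ := 2 * (G + 1) * n + j + 1
/-- code of an item letter -/
def cY (G n m : ℕ) : ℕ := 2 * (G + 1) * n + G + m + 1

/-- prefix sums -/
def pre (s : List ℕ) (i : ℕ) : ℕ := ((List.range i).map (fun t => s.getD t 0)).sum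

theorem pre_eq (s : List ℕ) (i : ℕ) : pre s i = ∑ t ∈ range i, s.getD t 0 := by
  unfold pre
  induction i with
  | zero => simp
  | succ i ih =>
    rw [List.range_succ, List.map_append, List.sum_append, ih, Finset.sum_range_succ]
    simp

theorem sum_getD (l : List ℕ) : ∑ i ∈ range l.length, l.getD i 0 = l.sum := by
  induction l with
  | nil => simp
  | cons x l ih =>
    rw [List.length_cons, Finset.sum_range_succ', List.sum_cons]
    simp only [List.getD_cons_succ, List.getD_cons_zero]
    rw [ih, add_comm]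

/-- the words of a strip -/
def wS (n j : ℕ) : List (List ℕ) :=
  (List.range n).map (fun c => [cS n j 0 c, cS n j 1 c]) ++
  (List.range (n - 1)).flatMap (fun c =>
    [[cS n j 0 c, cS n j 0 (c + 1)], [cS n j 0 c, cS n j 1 (c + 1)],
      [cS n j 1 c, cS n j 0 (c + 1)], [cS n j 1 c, cS n j 1 (c + 1)]])

/-- the words -/
def words (G n : ℕ) (s : List ℕ) : List (List ℕ) :=
  (List.range (G + 1)).flatMap (fun j => wS n j) ++
  ((List.range G).flatMap (fun j => [[cS n j 1 0, cX G n j], [cX G n j, cS n (j + 1) 0 0]]) ++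
  (List.range s.length).map (fun i =>
    (List.range (s.getD i 0)).map (fun q => cY G n (pre s i + q))))

/-- the puzzle -/
def puz (G : ℕ) (s : List ℕ) : Inst :=
  (List.replicate (3 * G + 2) (), words G (3 * G + 2) s)

theorem side_puz (G : ℕ) (s : List ℕ) : side (puz G s) = 3 * G + 2 := by
  simp [side, puz]

/-- packing of the items into `G` bins of capacity `C` -/
def Pack (s : List ℕ) (G C : ℕ) : Prop := ∃ f : ℕ → ℕ, (∀ i < s.length, f i < G) ∧
  ∀ j < G, ∑ i ∈ (range s.length).filter (fun i => f i = j), s.getD i 0 ≤ C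

theorem cS_inj {n j a c j' a' c' : ℕ} (ha : a < 2) (ha' : a' < 2) (hc : c < n) (hc' : c' < n)
    (h : cS n j a c = cS n j' a' c') : j = j' ∧ a = a' ∧ c = c' := by
  unfold cS at h
  have hn : 0 < n := by omega
  have h1 : ((2 * j + a) * n + c) / n = 2 * j + a := by
    rw [mul_comm, Nat.mul_add_div hn, Nat.div_eq_of_lt hc, add_zero]
  have h2 : ((2 * j' + a') * n + c') / n = 2 * j' + a' := by
    rw [mul_comm, Nat.mul_add_div hn, Nat.div_eq_of_lt hc', add_zero]
  have h3 : (2 * j + a) * n + c = (2 * j' + a') * n + c' := by omega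
  rw [h3, h2] at h1
  have h4 : 2 * j' + a' = 2 * j + a := h1
  have h5 : (2 * j + a) * n = (2 * j' + a') * n := by rw [h4]
  omega

theorem cS_le {G n j a c : ℕ} (hj : j ≤ G) (ha : a < 2) (hc : c < n) :
    cS n j a c ≤ 2 * (G + 1) * n := by
  unfold cS
  have : (2 * j + a + 1) * n ≤ 2 * (G + 1) * n := Nat.mul_le_mul_right _ (by omega)
  have h2 : (2 * j + a + 1) * n = (2 * j + a) * n + n := by ring
  omega

theorem total {G n : ℕ} (hn : n = 3 * G + 2) : 2 * (G + 1) * n + G + G * (n - 1) = n ^ 2 := by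
  have : G * (n - 1) + G = G * n := by
    have h : n - 1 + 1 = n := by omega
    calc G * (n - 1) + G = G * (n - 1 + 1) := by ring
      _ = G * n := by rw [h]
  have h2 : 2 * (G + 1) * n + G * n = n ^ 2 := by
    rw [hn]; ring
  omega

/-! ### from a board to a packing -/

section sound
variable {G n : ℕ} {s : List ℕ} {B : Fin n × Fin n → ℕ}

open Classical in
/-- the cell of a letter -/
noncomputable def cell (B : Fin n × Fin n → ℕ) (l : ℕ) : ℕ × ℕ :=
  if h : ∃ p, B p = l then ((h.choose.1 : ℕ), (h.choose.2 : ℕ)) else (0, 0)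

theorem cell_eq (hB : IsBoard n B) (p : Fin n × Fin n) : cell B (B p) = ((p.1 : ℕ), (p.2 : ℕ)) := by
  unfold cell
  have h : ∃ q, B q = B p := ⟨p, rfl⟩
  rw [dif_pos h]
  have : h.choose = p := hB.injOn (Set.mem_univ _) (Set.mem_univ _) h.choose_spec
  rw [this]

theorem exists_cell (hB : IsBoard n B) {l : ℕ} (h1 : 1 ≤ l) (h2 : l ≤ n ^ 2) : ∃ p, B p = l := by
  obtain ⟨p, -, hp⟩ := hB.surjOn (Set.mem_Icc.2 ⟨h1, h2⟩)
  exact ⟨p, hp⟩

theorem cell_inj (hB : IsBoard n B) {l l' : ℕ} (h1 : 1 ≤ l) (h2 : l ≤ n ^ 2) (h1' : 1 ≤ l')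
    (h2' : l' ≤ n ^ 2) (h : cell B l = cell B l') : l = l' := by
  obtain ⟨p, rfl⟩ := exists_cell hB h1 h2
  obtain ⟨q, rfl⟩ := exists_cell hB h1' h2'
  rw [cell_eq hB, cell_eq hB, Prod.mk.injEq] at h
  have : p = q := Prod.ext (Fin.ext h.1) (Fin.ext h.2)
  rw [this]

theorem cell_lt (hB : IsBoard n B) {l : ℕ} (h1 : 1 ≤ l) (h2 : l ≤ n ^ 2) :
    (cell B l).1 < n ∧ (cell B l).2 < n := by
  obtain ⟨p, rfl⟩ := exists_cell hB h1 h2
  rw [cell_eq hB]
  exact ⟨p.1.2, p.2.2⟩

theorem Ad_of_KAdj {p q : Fin n × Fin n} (h : KAdj p q) :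
    Ad ((p.1 : ℕ), (p.2 : ℕ)) ((q.1 : ℕ), (q.2 : ℕ)) := by
  obtain ⟨h1, h2, h3⟩ := h
  rw [abs_le] at h2 h3
  unfold Ad
  simp only
  refine ⟨?_, by omega, by omega, by omega, by omega⟩
  rintro ⟨e1, e2⟩
  exact h1 (Prod.ext (Fin.ext e1) (Fin.ext e2))

theorem KAdj_of_Ad {p q : Fin n × Fin n}
    (h : Ad ((p.1 : ℕ), (p.2 : ℕ)) ((q.1 : ℕ), (q.2 : ℕ))) : KAdj p q := by
  unfold Ad at h
  simp only at h
  refine ⟨?_, ?_, ?_⟩
  · rintro rfl
    exact h.1 ⟨rfl, rfl⟩
  · rw [abs_le]; omega
  · rw [abs_le]; omega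

theorem Ad_cell (hB : IsBoard n B) {x y : ℕ}
    (h : ∃ p q : Fin n × Fin n, KAdj p q ∧ B p = x ∧ B q = y) : Ad (cell B x) (cell B y) := by
  obtain ⟨p, q, h1, rfl, rfl⟩ := h
  rw [cell_eq hB, cell_eq hB]
  exact Ad_of_KAdj h1

theorem sound (hG : 1 ≤ G) (hn : n = 3 * G + 2) (hsum : s.sum = G * (n - 1))
    (hB : IsBoard n B) (hw : ∀ w ∈ words G n s, Occurs B w) : Pack s G (n - 1) := by
  have htot := total hn
  have htot' : 2 * (G + 1) * n + G ≤ n ^ 2 := by omega
  -- the words
  have hpair : ∀ x y : ℕ, [x, y] ∈ words G n s → Ad (cell B x) (cell B y) := by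
    intro x y h
    apply Ad_cell hB
    have := hw _ h
    unfold Occurs at this
    rwa [List.isChain_pair] at this
  have hS1 : ∀ j ≤ G, ∀ c < n, [cS n j 0 c, cS n j 1 c] ∈ words G n s := by
    intro j hj c hc
    unfold words
    rw [List.mem_append]
    left
    rw [List.mem_flatMap]
    refine ⟨j, by rw [List.mem_range]; omega, ?_⟩
    unfold wS
    rw [List.mem_append]
    left
    rw [List.mem_map]
    exact ⟨c, List.mem_range.2 hc, rfl⟩
  have hS2 : ∀ j ≤ G, ∀ c, c + 1 < n → ∀ w,
      w ∈ [[cS n j 0 c, cS n j 0 (c + 1)], [cS n j 0 c, cS n j 1 (c + 1)],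
      [cS n j 1 c, cS n j 0 (c + 1)], [cS n j 1 c, cS n j 1 (c + 1)]] → w ∈ words G n s := by
    intro j hj c hc w hw
    unfold words
    rw [List.mem_append]
    left
    rw [List.mem_flatMap]
    refine ⟨j, by rw [List.mem_range]; omega, ?_⟩
    unfold wS
    rw [List.mem_append]
    right
    rw [List.mem_flatMap]
    exact ⟨c, by rw [List.mem_range]; omega, hw⟩
  have hX : ∀ j < G, ∀ w, w ∈ [[cS n j 1 0, cX G n j], [cX G n j, cS n (j + 1) 0 0]] →
      w ∈ words G n s := by
    intro j hj w hw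
    unfold words
    rw [List.mem_append, List.mem_append]
    right; left
    rw [List.mem_flatMap]
    exact ⟨j, List.mem_range.2 hj, hw⟩
  have hY : ∀ i < s.length, (List.range (s.getD i 0)).map (fun q => cY G n (pre s i + q)) ∈
      words G n s := by
    intro i hi
    unfold words
    rw [List.mem_append, List.mem_append]
    right; right
    rw [List.mem_map]
    exact ⟨i, List.mem_range.2 hi, rfl⟩
  -- ranges of the codes
  have rS : ∀ j ≤ G, ∀ a < 2, ∀ c < n, 1 ≤ cS n j a c ∧ cS n j a c ≤ 2 * (G + 1) * n := by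
    intro j hj a ha c hc
    exact ⟨by unfold cS; omega, cS_le hj ha hc⟩
  have rX : ∀ j < G, 2 * (G + 1) * n < cX G n j ∧ cX G n j ≤ 2 * (G + 1) * n + G := by
    intro j hj
    unfold cX
    omega
  have rY : ∀ m < G * (n - 1), 2 * (G + 1) * n + G < cY G n m ∧ cY G n m ≤ n ^ 2 := by
    intro m hm
    unfold cY
    omega
  have hconf : Conf G n (fun j a c => cell B (cS n j a c)) (fun j => cell B (cX G n j))
      (fun m => cell B (cY G n m)) := by
    refine ⟨?_, ?_, ?_, ?_, ?_, ?_, ?_, ?_, ?_, ?_, ?_, ?_⟩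
    · intro j hj
      refine ⟨?_, ?_, ?_, ?_, ?_, ?_⟩
      · intro c hc
        exact hpair _ _ (hS1 j hj c hc)
      · intro c hc
        exact hpair _ _ (hS2 j hj c hc _ (by simp))
      · intro c hc
        exact hpair _ _ (hS2 j hj c hc _ (by simp))
      · intro c hc
        exact hpair _ _ (hS2 j hj c hc _ (by simp))
      · intro c hc
        exact hpair _ _ (hS2 j hj c hc _ (by simp))
      · intro a ha c hc a' ha' c' hc' he
        have h1 := rS j hj a ha c hc
        have h2 := rS j hj a' ha' c' hc'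
        have := cell_inj hB h1.1 (by omega) h2.1 (by omega) he
        exact (cS_inj ha ha' hc hc' this).2
    · intro j hj a ha c hc j' hj' a' ha' c' hc' he
      have h1 := rS j hj a ha c hc
      have h2 := rS j' hj' a' ha' c' hc'
      have := cell_inj hB h1.1 (by omega) h2.1 (by omega) he
      exact (cS_inj ha ha' hc hc' this).1
    · intro j hj j' hj' he
      have h1 := rX j hj
      have h2 := rX j' hj'
      have := cell_inj hB (by omega) (by omega) (by omega) (by omega) he
      unfold cX at this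
      omega
    · intro j hj a ha c hc j' hj' he
      have h1 := rS j hj a ha c hc
      have h2 := rX j' hj'
      have := cell_inj hB (by omega) (by omega) (by omega) (by omega) he
      omega
    · intro j hj a ha c hc m hm he
      have h1 := rS j hj a ha c hc
      have h2 := rY m hm
      have := cell_inj hB (by omega) (by omega) (by omega) (by omega) he
      omega
    · intro j hj m hm he
      have h1 := rX j hj
      have h2 := rY m hm
      have := cell_inj hB (by omega) (by omega) (by omega) (by omega) he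
      omega
    · intro m hm m' hm' he
      have h1 := rY m hm
      have h2 := rY m' hm'
      have := cell_inj hB (by omega) (by omega) (by omega) (by omega) he
      unfold cY at this
      omega
    · intro j hj a ha c hc
      have h1 := rS j hj a ha c hc
      exact cell_lt hB (by omega) (by omega)
    · intro j hj
      have h1 := rX j hj
      exact cell_lt hB (by omega) (by omega)
    · intro j hj
      have h1 := rY j hj
      exact cell_lt hB (by omega) (by omega)
    · intro j hj
      exact hpair _ _ (hX j hj _ (by simp))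
    · intro j hj
      exact hpair _ _ (hX j hj _ (by simp))
  obtain ⟨t, r, tinj, hx, hr, hy, hyy⟩ := hconf.lines hn hG
  -- prefix sums
  have hpre1 : ∀ i, pre s (i + 1) = pre s i + s.getD i 0 := by
    intro i
    rw [pre_eq, pre_eq, Finset.sum_range_succ]
  have hpre2 : pre s s.length = s.sum := by
    rw [pre_eq, sum_getD]
  have hmono : ∀ i j, i ≤ j → pre s i ≤ pre s j := by
    intro i j hij
    rw [pre_eq, pre_eq]
    exact Finset.sum_le_sum_of_subset (Finset.range_subset_range.2 hij)
  have hlt : ∀ i < s.length, ∀ q < s.getD i 0, pre s i + q < G * (n - 1) := by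
    intro i hi q hq
    have h1 := hmono (i + 1) s.length hi
    rw [hpre1, hpre2, hsum] at h1
    omega
  -- all letters of an item are in one line
  have hline : ∀ i < s.length, ∀ q < s.getD i 0,
      (t (cell B (cY G n (pre s i + q)))).1 = (t (cell B (cY G n (pre s i + 0)))).1 := by
    intro i hi q
    induction q with
    | zero => intro _; rfl
    | succ q ih =>
      intro hq
      rw [← ih (by omega)]
      have h1 := hw _ (hY i hi)
      unfold Occurs at h1
      rw [List.isChain_iff_getElem] at h1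
      have h2 := h1 q (by simpa using hq)
      simp only [List.getElem_map, List.getElem_range] at h2
      have h3 := Ad_cell hB h2
      exact (hyy _ (hlt i hi q (by omega)) _ (hlt i hi (q + 1) hq) h3).symm
  -- the bins
  have hbin : ∀ i, ∃ j, j < G ∧ (i < s.length → 0 < s.getD i 0 →
      (t (cell B (cY G n (pre s i + 0)))).1 = r j) := by
    intro i
    by_cases h : i < s.length ∧ 0 < s.getD i 0
    · obtain ⟨j, hj, e⟩ := (hy _ (hlt i h.1 0 h.2)).2
      exact ⟨j, hj, fun _ _ => e⟩
    · exact ⟨0, hG, fun h1 h2 => absurd ⟨h1, h2⟩ h⟩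
  choose f hf1 hf2 using hbin
  refine ⟨f, fun i _ => hf1 i, ?_⟩
  intro j hj
  -- the letters in the line `r j`
  obtain ⟨E, hE⟩ : ∃ E : Finset (ℕ × ℕ), E =
      ((range s.length).filter (fun i => f i = j)).biUnion
        (fun i => (range (s.getD i 0)).image (fun q => (i, q))) := ⟨_, rfl⟩
  have hEm : ∀ e ∈ E, e.1 < s.length ∧ f e.1 = j ∧ e.2 < s.getD e.1 0 := by
    rintro ⟨i, q⟩ he
    rw [hE, Finset.mem_biUnion] at he
    obtain ⟨i', hi', he⟩ := he
    rw [Finset.mem_image] at he
    obtain ⟨q', hq', he⟩ := he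
    rw [Prod.mk.injEq] at he
    rw [Finset.mem_filter, Finset.mem_range] at hi'
    rw [Finset.mem_range] at hq'
    obtain ⟨rfl, rfl⟩ := he
    exact ⟨hi'.1, hi'.2, hq'⟩
  have hEc : E.card = ∑ i ∈ (range s.length).filter (fun i => f i = j), s.getD i 0 := by
    rw [hE, Finset.card_biUnion]
    · apply Finset.sum_congr rfl
      intro i _
      rw [Finset.card_image_of_injective, Finset.card_range]
      intro a b hab
      exact (Prod.mk.injEq _ _ _ _ ▸ hab).2
    · intro i _ i' _ hii
      rw [Function.onFun, Finset.disjoint_left]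
      rintro ⟨a, b⟩ h1 h2
      rw [Finset.mem_image] at h1 h2
      obtain ⟨q1, -, e1⟩ := h1
      obtain ⟨q2, -, e2⟩ := h2
      rw [Prod.mk.injEq] at e1 e2
      exact hii (e1.1.trans e2.1.symm)
  rw [← hEc]
  -- they are mapped injectively to the columns different from that of `x j`
  have hmap : ∀ e ∈ E, (t (cell B (cY G n (pre s e.1 + e.2)))).1 = r j := by
    intro e he
    obtain ⟨h1, h2, h3⟩ := hEm e he
    rw [hline e.1 h1 e.2 h3, hf2 e.1 h1 (by omega), h2]
  have himg : (E.image (fun e => (t (cell B (cY G n (pre s e.1 + e.2)))).2)) ⊆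
      (range n).erase (t (cell B (cX G n j))).2 := by
    intro y hy'
    rw [Finset.mem_image] at hy'
    obtain ⟨e, he, rfl⟩ := hy'
    obtain ⟨h1, h2, h3⟩ := hEm e he
    rw [Finset.mem_erase, Finset.mem_range]
    refine ⟨?_, (hy _ (hlt e.1 h1 e.2 h3)).1⟩
    intro heq
    have h4 : t (cell B (cY G n (pre s e.1 + e.2))) = t (cell B (cX G n j)) :=
      Prod.ext ((hmap e he).trans (hx j hj).1.symm) heq
    exact hconf.xy j hj _ (hlt e.1 h1 e.2 h3) (tinj h4).symm
  have hinj : Set.InjOn (fun e : ℕ × ℕ => (t (cell B (cY G n (pre s e.1 + e.2)))).2) E := by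
    intro e he e' he' heq
    have he1 : e ∈ E := he
    have he2 : e' ∈ E := he'
    obtain ⟨h1, h2, h3⟩ := hEm e he1
    obtain ⟨h1', h2', h3'⟩ := hEm e' he2
    have h4 : t (cell B (cY G n (pre s e.1 + e.2))) = t (cell B (cY G n (pre s e'.1 + e'.2))) :=
      Prod.ext ((hmap e he1).trans (hmap e' he2).symm) heq
    have h5 := hconf.yinj _ (hlt e.1 h1 e.2 h3) _ (hlt e'.1 h1' e'.2 h3') (tinj h4)
    have h6 : e.1 = e'.1 := by
      rcases lt_trichotomy e.1 e'.1 with h | h | h
      · have a1 := hmono (e.1 + 1) e'.1 h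
        rw [hpre1] at a1
        omega
      · exact h
      · have a1 := hmono (e'.1 + 1) e.1 h
        rw [hpre1] at a1
        omega
    rw [h6] at h5
    exact Prod.ext h6 (by omega)
  have h7 := Finset.card_le_card himg
  rw [Finset.card_image_of_injOn hinj, Finset.card_erase_of_mem (Finset.mem_range.2 (hx j hj).2),
    Finset.card_range] at h7
  exact h7

end sound

end Pool.Agent.Q226.Bog
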