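import Pool.Agent.Q226.Bog.Items
import Pool.Agent.H43R3.SN.SRC
import Pool.Agent.H243R3.SN.Poly

set_option autoImplicit false

/-!
# The reduction from exact cover
-/

namespace Pool.Agent.Q226.Bog

open Pool.Agent.NPC Pool.Agent.NPC.H632 Pool.Agent.H557R2.Tri Pool.Agent.H692R2
open Pool.Agent.H43R3.SN Pool.Agent.NPC.SNP

section Gen

variable {α : Type} [TEnc α]

theorem poly_cS {n j a c : α → ℕ} (hn : Poly n) (hj : Poly j) (ha : Poly a) (hc : Poly c) :
    Poly (fun x => cS (n x) (j x) (a x) (c x)) := by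
  unfold cS
  fun_prop

theorem poly_cX {G n j : α → ℕ} (hG : Poly G) (hn : Poly n) (hj : Poly j) :
    Poly (fun x => cX (G x) (n x) (j x)) := by
  unfold cX
  fun_prop

theorem poly_cY {G n j : α → ℕ} (hG : Poly G) (hn : Poly n) (hj : Poly j) :
    Poly (fun x => cY (G x) (n x) (j x)) := by
  unfold cY
  fun_prop

theorem poly_pair2 {x y : α → ℕ} (hx : Poly x) (hy : Poly y) :
    Poly (fun a => [x a, y a]) :=
  NPC.Poly.cons hx (NPC.Poly.cons hy (NPC.Poly.const []))

theorem poly_wS {n j : α → ℕ} (hn : UPoly n) (hj : Poly j) :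
    Poly (fun x => wS (n x) (j x)) := by
  unfold wS
  have n1 : Poly (fun p : α × ℕ => n p.1) := (hn.comp (NPC.Poly.fst NPC.Poly.id)).toPoly
  have j1 : Poly (fun p : α × ℕ => j p.1) := hj.comp (NPC.Poly.fst NPC.Poly.id)
  have c1 : Poly (fun p : α × ℕ => p.2) := NPC.Poly.snd NPC.Poly.id
  have c2 : Poly (fun p : α × ℕ => p.2 + 1) := NPC.Poly.add c1 (NPC.Poly.const 1)
  have k0 : Poly (fun _ : α × ℕ => 0) := NPC.Poly.const 0
  have k1 : Poly (fun _ : α × ℕ => 1) := NPC.Poly.const 1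
  have hn1 : UPoly (fun x => n x - 1) :=
    UPoly.of_le (NPC.Poly.sub hn.toPoly (NPC.Poly.const 1)) hn fun x => Nat.sub_le _ _
  refine NPC.Poly.append ?_ ?_
  · exact NPC.Poly.map (F := fun x c => [cS (n x) (j x) 0 c, cS (n x) (j x) 1 c]) hn.range
      (poly_pair2 (poly_cS n1 j1 k0 c1) (poly_cS n1 j1 k1 c1))
  · refine NPC.Poly.flatMap (F := fun x c =>
      [[cS (n x) (j x) 0 c, cS (n x) (j x) 0 (c + 1)], [cS (n x) (j x) 0 c, cS (n x) (j x) 1 (c + 1)],
      [cS (n x) (j x) 1 c, cS (n x) (j x) 0 (c + 1)],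
      [cS (n x) (j x) 1 c, cS (n x) (j x) 1 (c + 1)]]) hn1.range ?_
    exact NPC.Poly.cons (poly_pair2 (poly_cS n1 j1 k0 c1) (poly_cS n1 j1 k0 c2))
      (NPC.Poly.cons (poly_pair2 (poly_cS n1 j1 k0 c1) (poly_cS n1 j1 k1 c2))
      (NPC.Poly.cons (poly_pair2 (poly_cS n1 j1 k1 c1) (poly_cS n1 j1 k0 c2))
      (NPC.Poly.cons (poly_pair2 (poly_cS n1 j1 k1 c1) (poly_cS n1 j1 k1 c2))
      (NPC.Poly.const []))))

theorem poly_pre {s : α → List ℕ} {i : α → ℕ} (hs : Poly s) (hi : UPoly i) :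
    Poly (fun x => pre (s x) (i x)) := by
  unfold pre
  refine NPC.Poly.sum (NPC.Poly.map (F := fun x t => (s x).getD t 0) hi.range ?_)
  exact NPC.Poly.getD (hs.comp (NPC.Poly.fst NPC.Poly.id)) (NPC.Poly.snd NPC.Poly.id)
    (NPC.Poly.const 0)

theorem poly_words {G n M : α → ℕ} {s : α → List ℕ} (hG : UPoly G) (hn : UPoly n) (hs : Poly s)
    (hM : UPoly M) (h : ∀ x i, (s x).getD i 0 ≤ M x) :
    Poly (fun x => words (G x) (n x) (s x)) := by
  have G1 : Poly (fun p : α × ℕ => G p.1) := (hG.comp (NPC.Poly.fst NPC.Poly.id)).toPoly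
  have n1 : Poly (fun p : α × ℕ => n p.1) := (hn.comp (NPC.Poly.fst NPC.Poly.id)).toPoly
  have c1 : Poly (fun p : α × ℕ => p.2) := NPC.Poly.snd NPC.Poly.id
  have c2 : Poly (fun p : α × ℕ => p.2 + 1) := NPC.Poly.add c1 (NPC.Poly.const 1)
  have k0 : Poly (fun _ : α × ℕ => 0) := NPC.Poly.const 0
  have k1 : Poly (fun _ : α × ℕ => 1) := NPC.Poly.const 1
  have s1 : Poly (fun p : α × ℕ => s p.1) := hs.comp (NPC.Poly.fst NPC.Poly.id)
  have i1 : UPoly (fun p : α × ℕ => min p.2 (s p.1).length) :=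
    UPoly.of_le (NPC.Poly.min c1 (NPC.Poly.length s1)) (UPoly.length s1) fun p => min_le_right _ _
  have g1 : UPoly (fun p : α × ℕ => (s p.1).getD p.2 0) :=
    UPoly.of_le (NPC.Poly.getD s1 c1 (NPC.Poly.const 0)) (hM.comp (NPC.Poly.fst NPC.Poly.id))
      fun p => h p.1 p.2
  have m1 : Poly (fun x => (List.range (G x + 1)).flatMap (fun j => wS (n x) j)) :=
    NPC.Poly.flatMap (F := fun x j => wS (n x) j) (UPoly.add hG (UPoly.const 1)).range
      (poly_wS (hn.comp (NPC.Poly.fst NPC.Poly.id)) c1)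
  have m2 : Poly (fun x => (List.range (G x)).flatMap
      (fun j => [[cS (n x) j 1 0, cX (G x) (n x) j], [cX (G x) (n x) j, cS (n x) (j + 1) 0 0]])) :=
    NPC.Poly.flatMap (F := fun x j =>
      [[cS (n x) j 1 0, cX (G x) (n x) j], [cX (G x) (n x) j, cS (n x) (j + 1) 0 0]]) hG.range
      (NPC.Poly.cons (poly_pair2 (poly_cS n1 c1 k1 k0) (poly_cX G1 n1 c1))
        (NPC.Poly.cons (poly_pair2 (poly_cX G1 n1 c1) (poly_cS n1 c2 k0 k0))
          (NPC.Poly.const [])))
  have m3 : Poly (fun x => (List.range (s x).length).map (fun i =>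
      (List.range ((s x).getD i 0)).map
        (fun q => cY (G x) (n x) (pre (s x) (min i (s x).length) + q)))) := by
    refine NPC.Poly.map (F := fun x i => (List.range ((s x).getD i 0)).map
        (fun q => cY (G x) (n x) (pre (s x) (min i (s x).length) + q)))
        (UPoly.length hs).range ?_
    refine NPC.Poly.map (F := fun (p : α × ℕ) q =>
      cY (G p.1) (n p.1) (pre (s p.1) (min p.2 (s p.1).length) + q)) g1.range ?_
    have q1 : Poly (fun r : (α × ℕ) × ℕ => G r.1.1) := G1.comp (NPC.Poly.fst NPC.Poly.id)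
    have q2 : Poly (fun r : (α × ℕ) × ℕ => n r.1.1) := n1.comp (NPC.Poly.fst NPC.Poly.id)
    have q3 : Poly (fun r : (α × ℕ) × ℕ => pre (s r.1.1) (min r.1.2 (s r.1.1).length)) :=
      (poly_pre s1 i1).comp (NPC.Poly.fst NPC.Poly.id)
    exact poly_cY q1 q2 (NPC.Poly.add q3 (NPC.Poly.snd NPC.Poly.id))
  refine (NPC.Poly.append m1 (NPC.Poly.append m2 m3)).congr fun x => ?_
  unfold words
  congr 2
  apply List.map_congr_left
  intro i hi
  rw [List.mem_range] at hi
  rw [min_eq_left hi.le]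

theorem poly_unary {n : α → ℕ} (hn : UPoly n) : Poly (fun x => List.replicate (n x) ()) := by
  refine (NPC.Poly.map (F := fun _ _ => ()) hn.range (NPC.Poly.const ())).congr fun x => ?_
  rw [List.map_const', List.length_range]

theorem poly_items {a : α → List ℕ} {b B : α → ℕ} (ha : Poly a) (hb : UPoly b) (hB : UPoly B) :
    Poly (fun x => items (a x) (b x) (B x)) := by
  unfold items NN GG
  have b1 := hb.toPoly
  have B1 := hB.toPoly
  have h2B : UPoly (fun x => 2 * B x) := UPoly.mul (UPoly.const 2) hB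
  have hN : Poly (fun x => 3 * (b x + 2 * B x) + 2 - 1) := by fun_prop
  have hN' : Poly (fun x => 3 * (b x + 2 * B x) + 2 - 1 - 2 * B x) := by fun_prop
  refine NPC.Poly.append ?_ (NPC.Poly.append ?_ ?_)
  · exact NPC.Poly.map (F := fun _ x => 2 * x) ha
      (NPC.Poly.mul (NPC.Poly.const 2) (NPC.Poly.snd NPC.Poly.id))
  · exact NPC.Poly.map (F := fun x _ => 3 * (b x + 2 * B x) + 2 - 1 - 2 * B x) hb.range
      (hN'.comp (NPC.Poly.fst NPC.Poly.id))
  · exact NPC.Poly.map (F := fun x _ => 3 * (b x + 2 * B x) + 2 - 1) h2B.range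
      (hN.comp (NPC.Poly.fst NPC.Poly.id))

theorem poly_puz {a : α → List ℕ} {b B : α → ℕ} (ha : Poly a) (hb : UPoly b) (hB : UPoly B)
    (hs : ∀ x, (a x).sum = b x * B x) :
    Poly (fun x => puz (GG (b x) (B x)) (items (a x) (b x) (B x))) := by
  unfold puz
  have hG : UPoly (fun x => GG (b x) (B x)) := by
    unfold GG
    exact UPoly.add hb (UPoly.mul (UPoly.const 2) hB)
  have hn : UPoly (fun x => 3 * GG (b x) (B x) + 2) :=
    UPoly.add (UPoly.mul (UPoly.const 3) hG) (UPoly.const 2)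
  refine NPC.Poly.pair (poly_unary hn) ?_
  refine poly_words (M := fun x => GG (b x) (B x) * (3 * GG (b x) (B x) + 2)) hG hn
    (poly_items ha hb hB) (UPoly.mul hG hn) fun x i => ?_
  refine (getD_le_sum _ i).trans ?_
  rw [items_sum (hs x)]
  exact Nat.mul_le_mul_left _ (by unfold NN; omega)

end Gen

/-- The puzzle of an instance of exact cover by 3-sets. -/
noncomputable def red (I : List (ℕ × ℕ × ℕ) × ℕ) : Inst :=
  if tst I then puz (GG (bb (clip I)) (BB (clip I)))
    (items (sizes (clip I)) (bb (clip I)) (BB (clip I))) else puz 2 [5, 5, 4]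

theorem poly_red : Poly red := by
  unfold red
  refine NPC.Poly.ite (p := tst) poly_tst ?_ (NPC.Poly.const _)
  exact poly_puz (poly_sizes.comp poly_clip) ubb uBB fun I => (clip_tst I).1

theorem not_pack : ¬ Pack [5, 5, 4] 2 7 := by
  rintro ⟨f, hf1, hf2⟩
  have a0 := hf1 0 (by simp)
  have a1 := hf1 1 (by simp)
  have a2 := hf1 2 (by simp)
  have h0 := hf2 0 (by norm_num)
  have h1 := hf2 1 (by norm_num)
  simp only [List.length_cons, List.length_nil, Finset.sum_filter, Finset.sum_range_succ,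
    Finset.sum_range_zero, List.getD_cons_zero, List.getD_cons_succ] at h0 h1
  split_ifs at h0 h1 <;> omega

theorem bad : Legal (puz 2 [5, 5, 4]) ∧ ¬ Solvable (puz 2 [5, 5, 4]) := by
  refine ⟨legal_puz (by norm_num) ?_, ?_⟩
  · intro i hi
    have : i = 0 ∨ i = 1 ∨ i = 2 := by simp at hi; omega
    rcases this with rfl | rfl | rfl <;> simp
  · rw [puz_iff (by norm_num) (by norm_num)]
    exact not_pack

theorem sizes_pos (I : List (ℕ × ℕ × ℕ) × ℕ) : ∀ i < (sizes I).length, 1 ≤ (sizes I).getD i 0 := by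
  intro i hi
  rw [List.getD_eq_getElem _ _ hi]
  have h : (sizes I)[i] ∈ sizes I := List.getElem_mem hi
  unfold sizes at h
  rw [List.mem_map] at h
  obtain ⟨e, -, he⟩ := h
  have h1 : (sizes I)[i] = min (Pool.Agent.H43R3.SN.sz I.1.length I.2 e) (20 * MM I.1.length I.2) :=
    he.symm
  rw [h1]
  have h2 : 100 ≤ MM I.1.length I.2 := by unfold MM; omega
  have h3 : 16 ≤ wt e.1 := by
    unfold wt
    split_ifs <;> omega
  have h4 : MM I.1.length I.2 * 1 ≤ MM I.1.length I.2 * wt e.1 := Nat.mul_le_mul_left _ (by omega)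
  unfold Pool.Agent.H43R3.SN.sz
  omega

theorem red_correct (I : List (ℕ × ℕ × ℕ) × ℕ) (hI : Pr I.1 I.2) :
    X3C I ↔ BoggleSolve (red I) := by
  have hbd : Pool.Agent.NPC.SNP.bd I = I := by
    unfold Pool.Agent.NPC.SNP.bd
    rw [Nat.min_eq_left (q_le hI)]
  rw [Pool.Agent.H43R3.SN.SRC.taskSRC I hI]
  have hb : 1 ≤ bb I := by
    have := hI.ne
    have h2 : 0 < I.1.length := List.length_pos_iff.2 this
    unfold bb
    omega
  have hB : 1 ≤ BB I := by
    unfold BB MM
    omega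
  have hpos := sizes_pos I
  unfold BoggleSolve
  by_cases h : tst I
  · have hc : clip I = I := by
      unfold clip
      rw [if_pos h, hbd]
    have hr : red I = puz (GG (bb I) (BB I)) (items (sizes I) (bb I) (BB I)) := by
      unfold red
      rw [if_pos h, hc]
    rw [hr]
    have hsum : (sizes I).sum = bb I * BB I := by
      unfold tst at h
      rwa [hbd] at h
    have hG : 1 ≤ GG (bb I) (BB I) := by unfold GG; omega
    have hs := items_sum hsum
    have hs' : (items (sizes I) (bb I) (BB I)).sum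
        = GG (bb I) (BB I) * (3 * GG (bb I) (BB I) + 2 - 1) := hs
    rw [puz_iff hG hs']
    have h3 := pack_iff hb hB hpos
    constructor
    · rintro ⟨_, h1⟩
      exact ⟨legal_puz hs' (items_pos hb hpos), h3.1 h1⟩
    · rintro ⟨_, h1⟩
      exact ⟨hsum, h3.2 h1⟩
  · have hr : red I = puz 2 [5, 5, 4] := by
      unfold red
      rw [if_neg h]
    rw [hr]
    constructor
    · rintro ⟨h1, _⟩
      exfalso
      apply h
      unfold tst
      rwa [hbd]
    · rintro ⟨_, h1⟩
      exact absurd h1 bad.2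

/-- BOGGLE-SOLVE is hard. -/
theorem hard : NPHardP BoggleSolve :=
  (hardPr_X3Cr.trans (Pr' := fun _ => True) poly_red (fun _ _ => trivial) red_correct).toHardI.toNPHardP

end Pool.Agent.Q226.Bog
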